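import Pool.Agent.Helper75_TI.Sieve4
import Pool.Agent.Helper71_SP.Consts

set_option autoImplicit false
set_option exponentiation.threshold 4000

/-!
Upper bound for the number of `k <= N` such that `6k-1, 6k+1, 6(k+h)-1, 6(k+h)+1` are all prime,
uniformly in the shift `h`.
-/

namespace Pool.Agent.Helper75_TI

open Finset Pool.Agent.Common_Sieve

/-- the sieving condition -/
def PP (h : ℤ) (p : ℕ) (n : ℤ) : Prop :=
  (p : ℤ) ∣ 6 * n + (-1) ∨ (p : ℤ) ∣ 6 * n + 1 ∨ (p : ℤ) ∣ 6 * n + (6 * h - 1) ∨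
    (p : ℤ) ∣ 6 * n + (6 * h + 1)

instance (h : ℤ) (p : ℕ) (n : ℤ) : Decidable (PP h p n) := by unfold PP; infer_instance

lemma PP_periodic (h : ℤ) (p : ℕ) (n : ℤ) : PP h p (n + p) ↔ PP h p n := by
  have key : ∀ b : ℤ, (p : ℤ) ∣ 6 * (n + p) + b ↔ (p : ℤ) ∣ 6 * n + b := by
    intro b
    have : 6 * (n + p) + b = (6 * n + b) + p * 6 := by ring
    rw [this, dvd_add_left (dvd_mul_right _ _)]
  unfold PP
  rw [key, key, key, key]

/-- the residues of one linear form -/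
def FF (p : ℕ) (b : ℤ) : Finset ℕ := (range p).filter (fun r : ℕ => (p : ℤ) ∣ 6 * r + b)

lemma FF_card {p : ℕ} (hp : p.Prime) (h7 : 7 ≤ p) (b : ℤ) : (FF p b).card = 1 := by
  apply card_dvd_one hp
  intro hd
  have h1 := Int.le_of_dvd (by norm_num) hd
  omega

lemma FF_disj {p : ℕ} {a b : ℤ} (hab : ¬ (p : ℤ) ∣ a - b) : Disjoint (FF p a) (FF p b) := by
  rw [Finset.disjoint_left]
  intro r hr hr'
  have h1 := (Finset.mem_filter.1 hr).2
  have h2 := (Finset.mem_filter.1 hr').2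
  apply hab
  have h3 := dvd_sub h1 h2
  have h4 : 6 * (r : ℤ) + a - (6 * r + b) = a - b := by ring
  rwa [h4] at h3

lemma cnt_eq (h : ℤ) (p : ℕ) : cnt (PP h) p
    = (FF p (-1) ∪ (FF p 1 ∪ (FF p (6 * h - 1) ∪ FF p (6 * h + 1)))).card := by
  unfold cnt FF PP
  rw [← Finset.filter_or, ← Finset.filter_or, ← Finset.filter_or]

lemma cnt_le (h : ℤ) {p : ℕ} (hp : p.Prime) (h7 : 7 ≤ p) : cnt (PP h) p ≤ 4 := by
  rw [cnt_eq]
  have h1 := Finset.card_union_le (FF p (-1)) (FF p 1 ∪ (FF p (6 * h - 1) ∪ FF p (6 * h + 1)))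
  have h2 := Finset.card_union_le (FF p 1) (FF p (6 * h - 1) ∪ FF p (6 * h + 1))
  have h3 := Finset.card_union_le (FF p (6 * h - 1)) (FF p (6 * h + 1))
  rw [FF_card hp h7] at h1 h2 h3
  rw [FF_card hp h7] at h3
  omega

lemma not_dvd_two {p : ℕ} (h7 : 7 ≤ p) : ¬ (p : ℤ) ∣ 2 := by
  intro hd
  have h1 := Int.le_of_dvd (by norm_num) hd
  omega

lemma cnt_ge_two (h : ℤ) {p : ℕ} (hp : p.Prime) (h7 : 7 ≤ p) : 2 ≤ cnt (PP h) p := by
  rw [cnt_eq]
  have h1 : (FF p (-1) ∪ FF p 1).card = 2 := by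
    rw [Finset.card_union_of_disjoint, FF_card hp h7, FF_card hp h7]
    apply FF_disj
    intro hd
    apply not_dvd_two h7
    have : (2:ℤ) = -(-1 - 1) := by norm_num
    rw [this, dvd_neg]
    exact hd
  rw [← h1]
  apply Finset.card_le_card
  apply Finset.union_subset_union_right
  exact Finset.subset_union_left

lemma cnt_ge_four (h : ℤ) {p : ℕ} (hp : p.Prime) (h7 : 7 ≤ p)
    (hh : ¬ (p : ℤ) ∣ h * (3 * h - 1) * (3 * h + 1)) : 4 ≤ cnt (PP h) p := by
  have hpi := Nat.prime_iff_prime_int.1 hp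
  have n2 := not_dvd_two h7
  have n3 : ¬ (p : ℤ) ∣ 3 := by
    intro hd
    have h1 := Int.le_of_dvd (by norm_num) hd
    omega
  have nh : ¬ (p : ℤ) ∣ h := fun hd => hh (dvd_mul_of_dvd_left (dvd_mul_of_dvd_left hd _) _)
  have nm : ¬ (p : ℤ) ∣ 3 * h - 1 := fun hd =>
    hh (dvd_mul_of_dvd_left (dvd_mul_of_dvd_right hd _) _)
  have np : ¬ (p : ℤ) ∣ 3 * h + 1 := fun hd => hh (dvd_mul_of_dvd_right hd _)
  have d1 : Disjoint (FF p (-1)) (FF p 1) := by
    apply FF_disj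
    intro hd
    apply n2
    have : (2:ℤ) = -(-1 - 1) := by norm_num
    rw [this, dvd_neg]; exact hd
  have d2 : Disjoint (FF p (-1)) (FF p (6 * h - 1)) := by
    apply FF_disj
    intro hd
    have e : (-1 : ℤ) - (6 * h - 1) = -(2 * 3 * h) := by ring
    rw [e, dvd_neg] at hd
    rcases hpi.dvd_or_dvd hd with h1 | h1
    · rcases hpi.dvd_or_dvd h1 with h2 | h2
      · exact n2 h2
      · exact n3 h2
    · exact nh h1
  have d3 : Disjoint (FF p (-1)) (FF p (6 * h + 1)) := by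
    apply FF_disj
    intro hd
    have e : (-1 : ℤ) - (6 * h + 1) = -(2 * (3 * h + 1)) := by ring
    rw [e, dvd_neg] at hd
    rcases hpi.dvd_or_dvd hd with h1 | h1
    · exact n2 h1
    · exact np h1
  have d4 : Disjoint (FF p 1) (FF p (6 * h - 1)) := by
    apply FF_disj
    intro hd
    have e : (1 : ℤ) - (6 * h - 1) = -(2 * (3 * h - 1)) := by ring
    rw [e, dvd_neg] at hd
    rcases hpi.dvd_or_dvd hd with h1 | h1
    · exact n2 h1
    · exact nm h1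
  have d5 : Disjoint (FF p 1) (FF p (6 * h + 1)) := by
    apply FF_disj
    intro hd
    have e : (1 : ℤ) - (6 * h + 1) = -(2 * 3 * h) := by ring
    rw [e, dvd_neg] at hd
    rcases hpi.dvd_or_dvd hd with h1 | h1
    · rcases hpi.dvd_or_dvd h1 with h2 | h2
      · exact n2 h2
      · exact n3 h2
    · exact nh h1
  have d6 : Disjoint (FF p (6 * h - 1)) (FF p (6 * h + 1)) := by
    apply FF_disj
    intro hd
    apply n2
    have : (2:ℤ) = -((6 * h - 1) - (6 * h + 1)) := by ring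
    rw [this, dvd_neg]; exact hd
  rw [cnt_eq, Finset.card_union_of_disjoint, Finset.card_union_of_disjoint,
    Finset.card_union_of_disjoint d6, FF_card hp h7, FF_card hp h7, FF_card hp h7, FF_card hp h7]
  · rw [Finset.disjoint_union_right]; exact ⟨d4, d5⟩
  · rw [Finset.disjoint_union_right, Finset.disjoint_union_right]; exact ⟨d1, d2, d3⟩

/-- the sum of the reciprocals of the primes `<= N` which divide `h (3h-1) (3h+1)` -/
noncomputable def sH (N h : ℕ) : ℝ :=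
  ∑ p ∈ (Nat.primesLE N).filter (fun p => p ∣ h * (3 * h - 1) * (3 * h + 1)), (1:ℝ) / p

lemma one_sub_cnt_le (h : ℤ) {p : ℕ} (hp : p.Prime) (h7 : 7 ≤ p) :
    1 - (cnt (PP h) p : ℝ) / p ≤ (1 - 1 / (p:ℝ)) ^ 4 *
      Real.exp (if (p : ℤ) ∣ h * (3 * h - 1) * (3 * h + 1) then 2 * (1 / (p:ℝ)) + 19 * (1 / (p:ℝ) ^ 2)
        else 0) := by
  have hp7 : (7:ℝ) ≤ p := by exact_mod_cast h7
  have hp0 : (0:ℝ) < p := by linarith
  have hb : 1 - 4 / (p:ℝ) ≤ (1 - 1 / (p:ℝ)) ^ 4 := by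
    have h1 := one_add_mul_le_pow (a := -(1 / (p:ℝ))) (by
      have : 1 / (p:ℝ) ≤ 1 := by rw [div_le_one hp0]; linarith
      linarith) 4
    have e1 : (1:ℝ) + (4:ℕ) * (-(1 / (p:ℝ))) = 1 - 4 / p := by push_cast; ring
    have e2 : (1:ℝ) + (-(1 / (p:ℝ))) = 1 - 1 / p := by ring
    rw [e1, e2] at h1
    exact h1
  split_ifs with hd
  · have h2 : (2:ℝ) ≤ cnt (PP h) p := by exact_mod_cast cnt_ge_two h hp h7
    have h3 : 1 - (cnt (PP h) p : ℝ) / p ≤ 1 - 2 / p := by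
      have : 2 / (p:ℝ) ≤ (cnt (PP h) p : ℝ) / p := div_le_div_of_nonneg_right h2 hp0.le
      linarith
    refine h3.trans ?_
    have h4 : 1 - 2 / (p:ℝ) ≤ (1 - 4 / p) * Real.exp (2 * (1 / (p:ℝ)) + 19 * (1 / (p:ℝ) ^ 2)) := by
      have h5 := Real.add_one_le_exp (2 * (1 / (p:ℝ)) + 19 * (1 / (p:ℝ) ^ 2))
      have h6 : 0 ≤ 1 - 4 / (p:ℝ) := by
        rw [sub_nonneg, div_le_one hp0]; linarith
      refine le_trans ?_ (mul_le_mul_of_nonneg_left h5 h6)
      have e : (1 - 4 / (p:ℝ)) * (2 * (1 / (p:ℝ)) + 19 * (1 / (p:ℝ) ^ 2) + 1) - (1 - 2 / p)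
          = (11 * p - 76) / p ^ 3 := by field_simp; ring
      have h7' : 0 ≤ (11 * (p:ℝ) - 76) / p ^ 3 := by
        apply div_nonneg _ (by positivity)
        linarith
      linarith
    exact h4.trans (mul_le_mul_of_nonneg_right hb (Real.exp_pos _).le)
  · have h2 : (4:ℝ) ≤ cnt (PP h) p := by exact_mod_cast cnt_ge_four h hp h7 hd
    have h3 : 1 - (cnt (PP h) p : ℝ) / p ≤ 1 - 4 / p := by
      have : 4 / (p:ℝ) ≤ (cnt (PP h) p : ℝ) / p := div_le_div_of_nonneg_right h2 hp0.le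
      linarith
    rw [Real.exp_zero, mul_one]
    exact h3.trans hb

end Pool.Agent.Helper75_TI
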