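import Pool.Agent.Helper75_TI.Corr

set_option autoImplicit false
set_option exponentiation.threshold 4000

/-!
Upper bound for the number of `k <= N` such that `6k-1, 6k+1, 6(k+h)-1, 6(k+h)+1` are all prime,
uniformly in the shift `h`.
-/

namespace Pool.Agent.Helper75_TI

open Finset Pool.Agent.Common_Sieve Pool.Agent.Helper71_SP

/-- `k` is the index of a twin prime pair `6k-1, 6k+1` -/
def TW (k : ℕ) : Prop := (6 * k - 1).Prime ∧ (6 * k + 1).Prime

instance (k : ℕ) : Decidable (TW k) := by unfold TW; infer_instance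

lemma sum_inv_sq_le : ∃ C : ℝ, 0 < C ∧ ∀ S : Finset ℕ, ∑ p ∈ S, 1 / (p:ℝ) ^ 2 ≤ C := by
  have h := Real.summable_one_div_nat_pow.2 (show 1 < 2 by norm_num)
  refine ⟨∑' n : ℕ, 1 / (n:ℝ) ^ 2 + 1, ?_, ?_⟩
  · have : 0 ≤ ∑' n : ℕ, 1 / (n:ℝ) ^ 2 := tsum_nonneg (fun n => by positivity)
    linarith
  · intro S
    have h1 := h.sum_le_tsum S (fun n _ => by positivity)
    linarith

lemma sqrt_le_log4 (x : ℝ) (hx : 1 < x) : Real.sqrt x ≤ 4096 * x / Real.log x ^ 4 := by
  have hl : 0 < Real.log x := Real.log_pos hx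
  have h1 : Real.log x ≤ 8 * x ^ (1 / 8 : ℝ) := by
    have := Real.log_le_rpow_div (by linarith : (0:ℝ) ≤ x) (show (0:ℝ) < 1 / 8 by norm_num)
    linarith
  have h2 : (x ^ (1 / 8 : ℝ)) ^ 4 = Real.sqrt x := by
    rw [← Real.rpow_natCast, ← Real.rpow_mul (by linarith), Real.sqrt_eq_rpow]
    norm_num
  have h3 : Real.log x ^ 4 ≤ 4096 * Real.sqrt x := by
    calc Real.log x ^ 4 ≤ (8 * x ^ (1 / 8 : ℝ)) ^ 4 := pow_le_pow_left₀ hl.le h1 4
      _ = 4096 * Real.sqrt x := by rw [mul_pow, h2]; norm_num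
  rw [le_div_iff₀ (by positivity)]
  have h4 : Real.sqrt x * Real.sqrt x = x := Real.mul_self_sqrt (by linarith)
  have h5 : 0 ≤ Real.sqrt x := Real.sqrt_nonneg _
  nlinarith

/-- Pairs of twin primes at a fixed distance. -/
theorem corr : ∃ C : ℝ, 0 < C ∧ ∃ K : ℕ, ∀ N ≥ K, ∀ h : ℕ, 1 ≤ h →
    (((range (N + 1)).filter (fun k => TW k ∧ TW (k + h))).card : ℝ)
      ≤ C * (N / Real.log N ^ 4) * Real.exp (2 * sH N h) := by
  set P0 := 7 with hP0
  set c0 := ∏ p ∈ P0.primesBelow, (1 - (1:ℝ) / p) with hc0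
  have hc0pos : 0 < c0 := Finset.prod_pos (fun p hp =>
    one_sub_inv_pos (Nat.prime_of_mem_primesBelow hp))
  obtain ⟨C2, hC2, hsq⟩ := sum_inv_sq_le
  refine ⟨3 * (2000 / c0) ^ 4 * Real.exp (19 * C2) + 8192, by positivity, 101 ^ 1000, ?_⟩
  intro N hN h hh
  have hw : 101 ≤ levk N 1000 := le_levk N 1000 101 (by norm_num) hN
  set w := levk N 1000 with hwdef
  have hwN : w ^ 1000 ≤ N := levk_pow_le N 1000 (by norm_num)
  have hN0 : 0 < N := (pow_pos (show 0 < w by omega) 1000).trans_le hwN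
  have hN1 : 1 < N := by
    have h1 : w ^ 2 ≤ w ^ 1000 := Nat.pow_le_pow_right (by omega) (by norm_num)
    nlinarith
  have hNr : (1:ℝ) < N := by exact_mod_cast hN1
  have hwle : w ≤ N := by
    have h1 : w ^ 1 ≤ w ^ 1000 := Nat.pow_le_pow_right (by omega) (by norm_num)
    rw [pow_one] at h1
    omega
  set S := (range w).filter (fun p => p.Prime ∧ P0 ≤ p) with hS
  have hSp : ∀ p ∈ S, p.Prime ∧ p < w := by
    intro p hp
    rw [hS, Finset.mem_filter, Finset.mem_range] at hp
    exact ⟨hp.2.1, hp.1⟩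
  have hSP : ∀ p ∈ S, 7 ≤ p := fun p hp => (Finset.mem_filter.1 hp).2.2
  have hdata : Data4 w S (fun p => (cnt (PP h) p : ℝ) / p) := by
    refine ⟨by omega, fun p hp => (hSp p hp).1, fun p hp => (hSp p hp).2,
      fun p => by positivity, fun p hp => ?_, fun p hp => ?_⟩
    · have h1 : (cnt (PP h) p : ℝ) ≤ 4 := by exact_mod_cast cnt_le h (hSp p hp).1 (hSP p hp)
      have h2 : (7:ℝ) ≤ p := by exact_mod_cast hSP p hp
      rw [div_le_iff₀ (by linarith)]
      linarith
    · have h1 : (cnt (PP h) p : ℝ) ≤ 4 := by exact_mod_cast cnt_le h (hSp p hp).1 (hSP p hp)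
      exact div_le_div_of_nonneg_right h1 (by positivity)
  have hsieve := sieve_count4 (PP h) (PP_periodic h) hdata 0 N 61
  set T := (range (N + 1)).filter (fun k => TW k ∧ TW (k + h)) with hT
  set T1 := T.filter (fun n : ℕ => n < w) with hT1
  set T3 := T.filter (fun n : ℕ => w ≤ n) with hT3
  have hTsub : T ⊆ T1 ∪ T3 := by
    intro n hn
    rw [Finset.mem_union]
    by_cases h1 : n < w
    · left; exact Finset.mem_filter.2 ⟨hn, h1⟩
    · right; exact Finset.mem_filter.2 ⟨hn, by omega⟩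
  have hc1 : (T1.card : ℝ) ≤ w := by
    have : T1 ⊆ range w := by
      intro n hn
      rw [Finset.mem_range]
      exact (Finset.mem_filter.1 hn).2
    have := Finset.card_le_card this
    rw [Finset.card_range] at this
    exact_mod_cast this
  have hc3 : (T3.card : ℝ) ≤ (((Finset.Ioc (0:ℤ) (0 + N)).filter (fun n => ∀ p ∈ S,
        ¬ PP h p n)).card : ℝ) := by
    have h1 : (T3.image (fun n : ℕ => (n : ℤ))).card = T3.card :=
      Finset.card_image_of_injective _ Nat.cast_injective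
    rw [← h1]
    have h2 : T3.image (fun n : ℕ => (n : ℤ)) ⊆ (Finset.Ioc (0:ℤ) (0 + N)).filter (fun n => ∀ p ∈ S,
        ¬ PP h p n) := by
      intro x hx
      obtain ⟨n, hn, rfl⟩ := Finset.mem_image.1 hx
      obtain ⟨hnT, hwn⟩ := Finset.mem_filter.1 hn
      rw [hT, Finset.mem_filter, Finset.mem_range] at hnT
      obtain ⟨hnk, ⟨q1, q2⟩, q3, q4⟩ := hnT
      rw [Finset.mem_filter, Finset.mem_Ioc]
      refine ⟨⟨by exact_mod_cast (by omega : 0 < n), by omega⟩, ?_⟩
      intro p hp hor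
      obtain ⟨hpp, hpw⟩ := hSp p hp
      have key : ∀ q : ℕ, q.Prime → w ≤ q → ¬ (p : ℤ) ∣ (q : ℤ) := by
        intro q hq hwq hd
        have h4 : p ∣ q := by exact_mod_cast hd
        have := (Nat.prime_dvd_prime_iff_eq hpp hq).1 h4
        omega
      rcases hor with h5 | h5 | h5 | h5
      · apply key _ q1 (by omega)
        have e : ((6 * n - 1 : ℕ) : ℤ) = 6 * n + (-1) := by
          have : 1 ≤ 6 * n := by omega
          push_cast [this]; ring
        rw [e]; exact h5
      · apply key _ q2 (by omega)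
        push_cast
        exact h5
      · apply key _ q3 (by omega)
        have e : ((6 * (n + h) - 1 : ℕ) : ℤ) = 6 * n + (6 * h - 1) := by
          have : 1 ≤ 6 * (n + h) := by omega
          push_cast [this]; ring
        rw [e]; exact h5
      · apply key _ q4 (by omega)
        have e : ((6 * (n + h) + 1 : ℕ) : ℤ) = 6 * n + (6 * h + 1) := by
          push_cast; ring
        rw [e]; exact h5
    exact_mod_cast Finset.card_le_card h2
  have hcard : (T.card : ℝ) ≤ w + T3.card := by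
    have h1 := Finset.card_le_card hTsub
    have h2 := Finset.card_union_le T1 T3
    have h4 : (T.card : ℝ) ≤ T1.card + T3.card := by
      exact_mod_cast h1.trans h2
    linarith
  -- the product
  have hlogN : 0 < Real.log N := Real.log_pos hNr
  have hlogw : Real.log N ≤ 2000 * Real.log w := by
    have := log_le_levk N 1000 (by norm_num) (by omega)
    push_cast at this
    linarith
  have hlogw0 : 0 < Real.log w := Real.log_pos (by exact_mod_cast (by omega : 1 < w))
  have hprod : ∏ p ∈ S, (1 - (cnt (PP h) p : ℝ) / p)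
      ≤ (2000 / c0 / Real.log N) ^ 4 * (Real.exp (2 * sH N h) * Real.exp (19 * C2)) := by
    have h1 : ∏ p ∈ S, (1 - (cnt (PP h) p : ℝ) / p) ≤ ∏ p ∈ S, ((1 - 1 / (p:ℝ)) ^ 4 *
      Real.exp (if (p : ℤ) ∣ (h:ℤ) * (3 * h - 1) * (3 * h + 1)
        then 2 * (1 / (p:ℝ)) + 19 * (1 / (p:ℝ) ^ 2) else 0)) := by
      apply Finset.prod_le_prod
      · intro p hp
        have := hdata.le p hp
        linarith
      · intro p hp
        exact one_sub_cnt_le h (hSp p hp).1 (hSP p hp)
    refine h1.trans ?_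
    rw [Finset.prod_mul_distrib, Finset.prod_pow, ← Real.exp_sum, ← Real.exp_add]
    have h2 := prod_S_le w P0 (by omega) S hS
    rw [← hc0] at h2
    have h3 : 0 ≤ ∏ p ∈ S, (1 - (1:ℝ) / p) :=
      Finset.prod_nonneg (fun p hp => (one_sub_inv_pos (hSp p hp).1).le)
    have h5 : ∏ p ∈ S, (1 - (1:ℝ) / p) ≤ 2000 / c0 / Real.log N := by
      have h4 : 1 / Real.log w ≤ 2000 / Real.log N := by
        rw [div_le_div_iff₀ hlogw0 hlogN]
        linarith
      calc ∏ p ∈ S, (1 - (1:ℝ) / p) = (c0 * ∏ p ∈ S, (1 - (1:ℝ) / p)) / c0 := by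
            field_simp
        _ ≤ (2000 / Real.log N) / c0 := by
            apply div_le_div_of_nonneg_right (h2.trans h4) hc0pos.le
        _ = 2000 / c0 / Real.log N := by ring
    apply mul_le_mul (pow_le_pow_left₀ h3 h5 4) _ (Real.exp_pos _).le (by positivity)
    rw [Real.exp_le_exp]
    rw [← Finset.sum_filter, Finset.sum_add_distrib, ← Finset.mul_sum, ← Finset.mul_sum]
    have h6 := hsq (S.filter (fun p : ℕ => (p : ℤ) ∣ (h:ℤ) * (3 * h - 1) * (3 * h + 1)))
    have h7 : ∑ p ∈ S.filter (fun p : ℕ => (p : ℤ) ∣ (h:ℤ) * (3 * h - 1) * (3 * h + 1)), 1 / (p:ℝ)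
        ≤ sH N h := by
      unfold sH
      apply Finset.sum_le_sum_of_subset_of_nonneg
      · intro p hp
        obtain ⟨hpS, hpd⟩ := Finset.mem_filter.1 hp
        rw [Finset.mem_filter, Nat.mem_primesLE]
        refine ⟨⟨by have := (hSp p hpS).2; omega, (hSp p hpS).1⟩, ?_⟩
        have e : ((h * (3 * h - 1) * (3 * h + 1) : ℕ) : ℤ) = (h:ℤ) * (3 * h - 1) * (3 * h + 1) := by
          have : 1 ≤ 3 * h := by omega
          push_cast [this]; ring
        rw [← e] at hpd
        exact_mod_cast hpd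
      · intro p _ _; positivity
    linarith
  have hS3 : (T3.card : ℝ) ≤ N * ((2000 / c0 / Real.log N) ^ 4 *
      (Real.exp (2 * sH N h) * Real.exp (19 * C2))) * 3 + Real.sqrt N := by
    have e1 : (w : ℝ) ^ (8 * 61 + 12) ≤ Real.sqrt N := by
      apply Real.le_sqrt_of_sq_le
      rw [← pow_mul]
      exact_mod_cast hwN
    have h0 : 0 ≤ ∏ p ∈ S, (1 - (cnt (PP h) p : ℝ) / p) := by
      apply Finset.prod_nonneg
      intro p hp
      have := hdata.le p hp
      linarith
    have e2 : (N : ℝ) * (∏ p ∈ S, (1 - (cnt (PP h) p : ℝ) / p)) * Real.exp (eps4 61)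
        ≤ N * ((2000 / c0 / Real.log N) ^ 4 *
      (Real.exp (2 * sH N h) * Real.exp (19 * C2))) * 3 := by
      apply mul_le_mul _ exp_eps4_61 (Real.exp_pos _).le (by positivity)
      exact mul_le_mul_of_nonneg_left hprod (by linarith)
    exact le_trans hc3 (hsieve.trans (add_le_add e2 e1))
  have hws : (w : ℝ) ≤ Real.sqrt N := by
    apply Real.le_sqrt_of_sq_le
    have h1 : w ^ 2 ≤ w ^ 1000 := Nat.pow_le_pow_right (by omega) (by norm_num)
    exact_mod_cast h1.trans hwN
  have hsq2 := sqrt_le_log4 N hNr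
  have hsH : 0 ≤ sH N h := Finset.sum_nonneg (fun p _ => by positivity)
  have hexp : 1 ≤ Real.exp (2 * sH N h) := Real.one_le_exp (by linarith)
  have hq : 0 ≤ (N:ℝ) / Real.log N ^ 4 := by positivity
  calc (T.card : ℝ) ≤ 2 * Real.sqrt N + N * ((2000 / c0 / Real.log N) ^ 4 *
      (Real.exp (2 * sH N h) * Real.exp (19 * C2))) * 3 := by linarith
    _ ≤ 2 * (4096 * N / Real.log N ^ 4) * Real.exp (2 * sH N h) + N * ((2000 / c0 / Real.log N) ^ 4 *
      (Real.exp (2 * sH N h) * Real.exp (19 * C2))) * 3 := by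
        have h1 : 2 * Real.sqrt N ≤ 2 * (4096 * N / Real.log N ^ 4) * Real.exp (2 * sH N h) := by
          have h2 : 0 ≤ 2 * (4096 * (N:ℝ) / Real.log N ^ 4) := by positivity
          nlinarith
        linarith
    _ = (3 * (2000 / c0) ^ 4 * Real.exp (19 * C2) + 8192) * (N / Real.log N ^ 4) *
        Real.exp (2 * sH N h) := by
        field_simp
        ring

end Pool.Agent.Helper75_TI
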