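import Pool.Agent.Helper75_TI.Tail

set_option autoImplicit false

/-!
The additive energy of a set of twin prime indices and an arbitrary set.
-/

namespace Pool.Agent.Helper75_TI

open Finset Filter

/-- number of pairs of twin prime indices at distance `h` -/
def gg (N h : ℕ) : ℕ := ((range (N + 1)).filter (fun k => TW k ∧ TW (k + h))).card

lemma fiber_le (N : ℕ) (A : Finset ℕ) (hA : ∀ k ∈ A, TW k ∧ k ≤ N) (m₁ m₂ : ℕ) :
    ((A ×ˢ A).filter (fun k => k.1 + m₁ = k.2 + m₂)).card
      ≤ if m₁ = m₂ then A.card else gg N (Nat.dist m₁ m₂) := by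
  split_ifs with h
  · subst h
    apply Finset.card_le_card_of_injOn (fun k => k.1)
    · rintro ⟨a, b⟩ hk
      exact Finset.mem_coe.2 (Finset.mem_product.1 (Finset.mem_filter.1 (Finset.mem_coe.1 hk)).1).1
    · rintro ⟨a, b⟩ ha ⟨c, d⟩ hb hab
      have h1 := (Finset.mem_filter.1 (Finset.mem_coe.1 ha)).2
      have h2 := (Finset.mem_filter.1 (Finset.mem_coe.1 hb)).2
      simp only at h1 h2 hab
      rw [Prod.mk.injEq]
      constructor <;> omega
  · unfold gg
    rcases Nat.lt_or_gt_of_ne h with hlt | hgt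
    · -- `k.1 = k.2 + (m₂ - m₁)`
      have hd : Nat.dist m₁ m₂ = m₂ - m₁ := Nat.dist_eq_sub_of_le hlt.le
      rw [hd]
      apply Finset.card_le_card_of_injOn (fun k => k.2)
      · rintro ⟨a, b⟩ hk
        obtain ⟨h1, h2⟩ := Finset.mem_filter.1 (Finset.mem_coe.1 hk)
        obtain ⟨h3, h4⟩ := Finset.mem_product.1 h1
        simp only at h2 h3 h4
        have h5 := hA b h4
        have h6 := hA a h3
        apply Finset.mem_coe.2
        apply Finset.mem_filter.2
        refine ⟨Finset.mem_range.2 (by show b < N + 1; omega), h5.1, ?_⟩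
        have : b + (m₂ - m₁) = a := by omega
        show TW (b + (m₂ - m₁))
        rw [this]
        exact h6.1
      · rintro ⟨a, b⟩ ha ⟨c, d⟩ hb hab
        have h1 := (Finset.mem_filter.1 (Finset.mem_coe.1 ha)).2
        have h2 := (Finset.mem_filter.1 (Finset.mem_coe.1 hb)).2
        simp only at h1 h2 hab
        rw [Prod.mk.injEq]
        constructor <;> omega
    · have hd : Nat.dist m₁ m₂ = m₁ - m₂ := Nat.dist_eq_sub_of_le_right hgt.le
      rw [hd]
      apply Finset.card_le_card_of_injOn (fun k => k.1)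
      · rintro ⟨a, b⟩ hk
        obtain ⟨h1, h2⟩ := Finset.mem_filter.1 (Finset.mem_coe.1 hk)
        obtain ⟨h3, h4⟩ := Finset.mem_product.1 h1
        simp only at h2 h3 h4
        have h5 := hA b h4
        have h6 := hA a h3
        apply Finset.mem_coe.2
        apply Finset.mem_filter.2
        refine ⟨Finset.mem_range.2 (by show a < N + 1; omega), h6.1, ?_⟩
        have : a + (m₁ - m₂) = b := by omega
        show TW (a + (m₁ - m₂))
        rw [this]
        exact h5.1
      · rintro ⟨a, b⟩ ha ⟨c, d⟩ hb hab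
        have h1 := (Finset.mem_filter.1 (Finset.mem_coe.1 ha)).2
        have h2 := (Finset.mem_filter.1 (Finset.mem_coe.1 hb)).2
        simp only at h1 h2 hab
        rw [Prod.mk.injEq]
        constructor <;> omega

lemma energy_le (N : ℕ) (A B : Finset ℕ) (hA : ∀ k ∈ A, TW k ∧ k ≤ N) :
    Finset.addEnergy A B ≤ ∑ m₁ ∈ B, ∑ m₂ ∈ B,
      (if m₁ = m₂ then A.card else gg N (Nat.dist m₁ m₂)) := by
  have h1 : Finset.addEnergy A B = ∑ m ∈ B ×ˢ B,
      ((A ×ˢ A).filter (fun k => k.1 + m.1 = k.2 + m.2)).card := by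
    unfold Finset.addEnergy
    rw [Finset.card_filter, Finset.sum_product_right]
    apply Finset.sum_congr rfl
    intro m _
    rw [Finset.card_filter]
  rw [h1, Finset.sum_product]
  apply Finset.sum_le_sum
  intro m₁ _
  apply Finset.sum_le_sum
  intro m₂ _
  exact fiber_le N A hA m₁ m₂

/-- a bound for `gg` in terms of good and bad shifts -/
theorem gg_le : ∃ C : ℝ, 0 < C ∧ ∀ᶠ N : ℕ in atTop, ∃ Bad : Finset ℕ,
    (Bad.card : ℝ) ≤ C * N / Real.log N ^ 20 ∧ ∀ h : ℕ, 1 ≤ h → h ≤ N →
      (gg N h : ℝ) ≤ C * (N / Real.log N ^ 4) *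
        (if h ∈ Bad then Real.log N ^ 2 else Real.log (Real.log (Real.log N)) ^ 2) := by
  obtain ⟨C1, hC1, K, hcorr⟩ := corr
  obtain ⟨C2, hmert⟩ := Common_Mertens.sum_inv_le
  set E := Real.exp (2 * C2 + 2) with hE
  have hE0 : 0 < E := Real.exp_pos _
  refine ⟨12 * Real.exp 2 + C1 * (4 * E), by positivity, ?_⟩
  have tL : Tendsto (fun N : ℕ => Real.log N) atTop atTop :=
    Real.tendsto_log_atTop.comp tendsto_natCast_atTop_atTop
  have tLL : Tendsto (fun N : ℕ => Real.log (Real.log N)) atTop atTop :=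
    Real.tendsto_log_atTop.comp tL
  filter_upwards [eventually_ge_atTop K, tLL.eventually_ge_atTop 100,
    tL.eventually_ge_atTop 2, eventually_ge_atTop 3] with N hNK hLL hL2 hN3
  set L := Real.log N with hLdef
  set LL := Real.log L with hLLdef
  set P0 := ⌈60 * LL⌉₊ with hP0
  have hP0ge : 60 * LL ≤ P0 := Nat.le_ceil _
  have hP0le : (P0 : ℝ) < 60 * LL + 1 := Nat.ceil_lt_add_one (by linarith)
  have hP0r : (6000:ℝ) ≤ P0 := by linarith
  have hP01 : 1 ≤ P0 := by exact_mod_cast (by linarith : (1:ℝ) ≤ P0)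
  set Q := (Nat.primesLE N).filter (fun p => P0 < p) with hQdef
  have hQ : ∀ p ∈ Q, p.Prime ∧ P0 < p ∧ p ≤ N := by
    intro p hp
    obtain ⟨h1, h2⟩ := Finset.mem_filter.1 hp
    rw [Nat.mem_primesLE] at h1
    exact ⟨h1.2, h2, h1.1⟩
  have hL0 : 0 < L := by linarith
  refine ⟨(Finset.Icc 1 N).filter (fun h => 1 < fQ Q (h * (3 * h - 1) * (3 * h + 1))), ?_, ?_⟩
  · have h1 := card_bad Q (60 * LL) (by linarith) P0 N hP0ge hP01 hQ N
    have h2 : Real.exp (-(60 * LL / 3)) = 1 / L ^ 20 := by
      rw [show 60 * LL / 3 = (20:ℕ) * LL by push_cast; ring, Real.exp_neg, Real.exp_nat_mul,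
        hLLdef, Real.exp_log hL0, one_div]
    rw [h2] at h1
    refine h1.trans ?_
    have h3 : 0 ≤ C1 * (4 * E) := by positivity
    have h4 : (0:ℝ) ≤ N / L ^ 20 := by positivity
    have e : 12 * (N:ℝ) * Real.exp 2 * (1 / L ^ 20) = 12 * Real.exp 2 * (N / L ^ 20) := by ring
    have e2 : (12 * Real.exp 2 + C1 * (4 * E)) * N / L ^ 20
        = 12 * Real.exp 2 * (N / L ^ 20) + C1 * (4 * E) * (N / L ^ 20) := by ring
    rw [e, e2]
    nlinarith
  · intro h hh1 hhN
    have h1 := hcorr N hNK h hh1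
    have hNL : (0:ℝ) ≤ N / L ^ 4 := by positivity
    -- all primes
    have hall : sH N h ≤ Real.log (Real.log (N + 1)) + C2 := by
      refine le_trans ?_ (hmert N (by omega))
      unfold sH
      apply Finset.sum_le_sum_of_subset_of_nonneg (Finset.filter_subset _ _)
      intro p _ _; positivity
    -- small and large primes
    have hsplit : sH N h ≤ (Real.log (Real.log (P0 + 1)) + C2)
        + fQ Q (h * (3 * h - 1) * (3 * h + 1)) := by
      have h2 := hmert P0 hP01
      unfold sH fQ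
      have hsub : (Nat.primesLE N).filter (fun p => p ∣ h * (3 * h - 1) * (3 * h + 1)) ⊆
          Nat.primesLE P0 ∪ Q.filter (fun p => p ∣ h * (3 * h - 1) * (3 * h + 1)) := by
        intro p hp
        obtain ⟨hp1, hp2⟩ := Finset.mem_filter.1 hp
        rw [Nat.mem_primesLE] at hp1
        rw [Finset.mem_union, Finset.mem_filter, hQdef, Finset.mem_filter, Nat.mem_primesLE,
          Nat.mem_primesLE]
        by_cases hc : p ≤ P0
        · exact Or.inl ⟨hc, hp1.2⟩
        · exact Or.inr ⟨⟨hp1, by omega⟩, hp2⟩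
      have hn : ∀ p : ℕ, (0:ℝ) ≤ 1 / p := fun p => by positivity
      refine (Finset.sum_le_sum_of_subset_of_nonneg hsub (fun p _ _ => hn p)).trans ?_
      have un : ∀ s t : Finset ℕ, ∑ p ∈ s ∪ t, (1:ℝ) / p
          ≤ ∑ p ∈ s, (1:ℝ) / p + ∑ p ∈ t, (1:ℝ) / p := by
        intro s t
        rw [← Finset.sum_union_inter]
        have : 0 ≤ ∑ p ∈ s ∩ t, (1:ℝ) / p := Finset.sum_nonneg (fun p _ => hn p)
        linarith
      refine (un _ _).trans ?_
      linarith
    have hexp2 : ∀ x : ℝ, 0 < Real.log x →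
        Real.exp (2 * (Real.log (Real.log x) + C2) + 2) = Real.log x ^ 2 * E := by
      intro x hx
      have e : 2 * (Real.log (Real.log x) + C2) + 2
          = (2:ℕ) * Real.log (Real.log x) + (2 * C2 + 2) := by push_cast; ring
      rw [e, Real.exp_add, Real.exp_nat_mul, Real.exp_log hx]
    have hN3r : (3:ℝ) ≤ N := by exact_mod_cast hN3
    have hbound : Real.exp (2 * sH N h) ≤ 4 * E * (if h ∈ (Finset.Icc 1 N).filter
        (fun h => 1 < fQ Q (h * (3 * h - 1) * (3 * h + 1))) then L ^ 2 else Real.log LL ^ 2) := by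
      split_ifs with hbad
      · have hlog : Real.log ((N:ℝ) + 1) ≤ 2 * L := by
          have h2 : (N:ℝ) + 1 ≤ (N:ℝ) ^ 2 := by nlinarith
          have h3 := Real.log_le_log (by linarith) h2
          rw [Real.log_pow] at h3
          push_cast at h3
          exact h3
        have hlog0 : 0 < Real.log ((N:ℝ) + 1) := Real.log_pos (by linarith)
        calc Real.exp (2 * sH N h) ≤ Real.exp (2 * (Real.log (Real.log ((N:ℝ) + 1)) + C2) + 2) := by
              rw [Real.exp_le_exp]; linarith
          _ = Real.log ((N:ℝ) + 1) ^ 2 * E := hexp2 _ hlog0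
          _ ≤ (2 * L) ^ 2 * E := by
              apply mul_le_mul_of_nonneg_right _ hE0.le
              exact pow_le_pow_left₀ hlog0.le hlog 2
          _ = 4 * E * L ^ 2 := by ring
      · have hgood : fQ Q (h * (3 * h - 1) * (3 * h + 1)) ≤ 1 := by
          by_contra hc
          exact hbad (Finset.mem_filter.2 ⟨Finset.mem_Icc.2 ⟨hh1, hhN⟩, not_le.1 hc⟩)
        have hlog : Real.log ((P0:ℝ) + 1) ≤ 2 * Real.log LL := by
          have h2 : (P0:ℝ) + 1 ≤ LL ^ 2 := by nlinarith
          have h3 := Real.log_le_log (by linarith) h2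
          rw [Real.log_pow] at h3
          push_cast at h3
          exact h3
        have hlog0 : 0 < Real.log ((P0:ℝ) + 1) := Real.log_pos (by linarith)
        calc Real.exp (2 * sH N h) ≤ Real.exp (2 * (Real.log (Real.log ((P0:ℝ) + 1)) + C2) + 2) := by
              rw [Real.exp_le_exp]; linarith
          _ = Real.log ((P0:ℝ) + 1) ^ 2 * E := hexp2 _ hlog0
          _ ≤ (2 * Real.log LL) ^ 2 * E := by
              apply mul_le_mul_of_nonneg_right _ hE0.le
              exact pow_le_pow_left₀ hlog0.le hlog 2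
          _ = 4 * E * Real.log LL ^ 2 := by ring
    have hX : 0 ≤ (if h ∈ (Finset.Icc 1 N).filter
        (fun h => 1 < fQ Q (h * (3 * h - 1) * (3 * h + 1))) then L ^ 2 else Real.log LL ^ 2) := by
      split_ifs <;> positivity
    set X := (if h ∈ (Finset.Icc 1 N).filter
        (fun h => 1 < fQ Q (h * (3 * h - 1) * (3 * h + 1))) then L ^ 2 else Real.log LL ^ 2)
    have h2 : (gg N h : ℝ) ≤ C1 * (N / L ^ 4) * Real.exp (2 * sH N h) := h1
    calc (gg N h : ℝ) ≤ C1 * (N / L ^ 4) * (4 * E * X) :=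
          h2.trans (mul_le_mul_of_nonneg_left hbound (by positivity))
      _ = C1 * (4 * E) * ((N / L ^ 4) * X) := by ring
      _ ≤ (12 * Real.exp 2 + C1 * (4 * E)) * ((N / L ^ 4) * X) := by
          apply mul_le_mul_of_nonneg_right _ (mul_nonneg hNL hX)
          have := Real.exp_pos 2
          linarith
      _ = _ := by ring

end Pool.Agent.Helper75_TI
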