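import Pool.Agent.Helper75_TI.Main
import Pool.Agent.Helper99_TwinIdx.Counts

set_option autoImplicit false

/-!
Twin primes between `x` and `lam x log x` if the integers up to `lam x` are represented.
-/

namespace Pool.Agent.Helper75_TI

open Finset Filter

/-- the twin primes in `(x, y]` -/
def Tn (x y : ℕ) : Finset ℕ := (range (y + 1)).filter (fun p => x < p ∧ p.Prime ∧ (p + 2).Prime)

/-- `n = k + m` is an admissible decomposition -/
def Ad (n k m : ℕ) : Prop :=
  0 < k ∧ 0 < m ∧ k + m = n ∧ Nat.Prime (6 * k - 1) ∧ Nat.Prime (6 * k + 1) ∧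
    Nat.Prime (Nat.nth Nat.Prime (m - 1) + 2)

lemma pc_nth (m : ℕ) (hm : 0 < m) : Nat.primeCounting (Nat.nth Nat.Prime (m - 1)) = m := by
  have h1 : (Nat.nth Nat.Prime (m - 1)).Prime := Nat.prime_nth_prime _
  simp only [Nat.primeCounting, Nat.primeCounting']
  rw [Nat.count_succ, if_pos h1, Nat.count_nth_of_infinite Nat.infinite_setOfPred_prime]
  omega

lemma nth_le_of_le_pc (m y : ℕ) (hm : 0 < m) (h : m ≤ Nat.primeCounting y) :
    Nat.nth Nat.Prime (m - 1) ≤ y := by
  by_contra hc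
  have h1 : y + 1 ≤ Nat.nth Nat.Prime (m - 1) := by omega
  have h2 : Nat.count Nat.Prime (y + 1) ≤ Nat.count Nat.Prime (Nat.nth Nat.Prime (m - 1)) :=
    Nat.count_monotone _ h1
  rw [Nat.count_nth_of_infinite Nat.infinite_setOfPred_prime] at h2
  simp only [Nat.primeCounting, Nat.primeCounting'] at h
  omega

/-- the combinatorial core -/
lemma core (x y n0 : ℕ) (hn0 : n0 ≤ Nat.primeCounting y) (hy : 6 * n0 ≤ y)
    (hrep : ∀ n, 2 < n → n ≤ n0 → ∃ k m, Ad n k m) :
    n0 ≤ 2 + ((x + 1) / 6 + Nat.primeCounting x) + (Tn x y).card * (2 * (Tw x).card + (Tn x y).card) := by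
  set Told := Tw x with hTold
  set Tnew := Tn x y with hTnew
  -- images of pairs
  set f : ℕ × ℕ → ℕ := fun pq => (pq.1 + 1) / 6 + Nat.primeCounting pq.2 with hf
  set I := (Tnew ×ˢ Told).image f ∪ ((Told ×ˢ Tnew).image f ∪ (Tnew ×ˢ Tnew).image f) with hI
  have hIc : I.card ≤ Tnew.card * (2 * Told.card + Tnew.card) := by
    have h1 := Finset.card_union_le ((Tnew ×ˢ Told).image f)
      ((Told ×ˢ Tnew).image f ∪ (Tnew ×ˢ Tnew).image f)
    have h2 := Finset.card_union_le ((Told ×ˢ Tnew).image f) ((Tnew ×ˢ Tnew).image f)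
    have h3 := Finset.card_image_le (s := Tnew ×ˢ Told) (f := f)
    have h4 := Finset.card_image_le (s := Told ×ˢ Tnew) (f := f)
    have h5 := Finset.card_image_le (s := Tnew ×ˢ Tnew) (f := f)
    rw [Finset.card_product] at h3 h4 h5
    have e : Tnew.card * (2 * Told.card + Tnew.card)
        = Tnew.card * Told.card + (Told.card * Tnew.card + Tnew.card * Tnew.card) := by ring
    rw [hI, e]
    omega
  have hsub : Finset.Ioc (2 + ((x + 1) / 6 + Nat.primeCounting x)) n0 ⊆ I := by
    intro n hn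
    rw [Finset.mem_Ioc] at hn
    obtain ⟨k, m, hk, hm, hkm, h1, h2, h3⟩ := hrep n (by omega) hn.2
    set p := 6 * k - 1 with hp
    have hp2 : p + 2 = 6 * k + 1 := by omega
    set q := Nat.nth Nat.Prime (m - 1) with hq
    have hqp : q.Prime := Nat.prime_nth_prime _
    have hpc : Nat.primeCounting q = m := pc_nth m hm
    have hqy : q ≤ y := nth_le_of_le_pc m y hm (by omega)
    have hpy : p ≤ y := by omega
    have hfe : f (p, q) = n := by
      show (p + 1) / 6 + Nat.primeCounting q = n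
      rw [hpc]
      omega
    have hpT : p ≤ x → p ∈ Told := fun h => by
      rw [hTold]; unfold Tw
      rw [Finset.mem_filter, Finset.mem_range, hp2]
      exact ⟨by omega, h1, h2⟩
    have hpN : x < p → p ∈ Tnew := fun h => by
      rw [hTnew]; unfold Tn
      rw [Finset.mem_filter, Finset.mem_range, hp2]
      exact ⟨by omega, h, h1, h2⟩
    have hqT : q ≤ x → q ∈ Told := fun h => by
      rw [hTold]; unfold Tw
      rw [Finset.mem_filter, Finset.mem_range]
      exact ⟨by omega, hqp, h3⟩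
    have hqN : x < q → q ∈ Tnew := fun h => by
      rw [hTnew]; unfold Tn
      rw [Finset.mem_filter, Finset.mem_range]
      exact ⟨by omega, h, hqp, h3⟩
    rw [hI, Finset.mem_union, Finset.mem_union, Finset.mem_image, Finset.mem_image,
      Finset.mem_image]
    rcases Nat.lt_or_ge x p with hxp | hxp
    · rcases Nat.lt_or_ge x q with hxq | hxq
      · right; right
        exact ⟨(p, q), Finset.mem_product.2 ⟨hpN hxp, hqN hxq⟩, hfe⟩
      · left
        exact ⟨(p, q), Finset.mem_product.2 ⟨hpN hxp, hqT hxq⟩, hfe⟩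
    · rcases Nat.lt_or_ge x q with hxq | hxq
      · right; left
        exact ⟨(p, q), Finset.mem_product.2 ⟨hpT hxp, hqN hxq⟩, hfe⟩
      · exfalso
        have h4 : Nat.primeCounting q ≤ Nat.primeCounting x := Nat.monotone_primeCounting hxq
        rw [hpc] at h4
        have h5 : k ≤ (x + 1) / 6 := by omega
        omega
  have h1 := Finset.card_le_card hsub
  rw [Nat.card_Ioc] at h1
  omega

lemma final_gap (c1 C x l t T : ℝ) (hc10 : 0 < c1) (hC : 0 < C) (hx0 : 0 < x) (hl0 : 0 < l)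
    (ht0 : 0 ≤ t) (hmain : c1 * x ≤ t * (2 * T + t)) (hTC : T ≤ C * x / l ^ 2)
    (g5 : l ^ 4 ≤ (1 / (3 * c1)) * x) : min (c1 / (3 * C)) c1 * l ^ 2 ≤ t := by
  rcases le_or_gt t T with htT | htT
  · -- `t <= T`
    have h6 : c1 * x ≤ t * (3 * (C * x / l ^ 2)) := by
      have h5 : 2 * T + t ≤ 3 * (C * x / l ^ 2) := by linarith
      exact hmain.trans (mul_le_mul_of_nonneg_left h5 ht0)
    have h7 : c1 * l ^ 2 ≤ t * (3 * C) := by
      have e1 : t * (3 * (C * x / l ^ 2)) = (t * (3 * C)) * x / l ^ 2 := by ring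
      rw [e1, le_div_iff₀ (by positivity)] at h6
      have h8 : (c1 * l ^ 2) * x ≤ (t * (3 * C)) * x := by linarith
      exact le_of_mul_le_mul_right h8 hx0
    have h8 : c1 / (3 * C) * l ^ 2 ≤ t := by
      rw [div_mul_eq_mul_div, div_le_iff₀ (by positivity)]
      exact h7
    refine le_trans ?_ h8
    exact mul_le_mul_of_nonneg_right (min_le_left _ _) (by positivity)
  · -- `T < t`
    have h6 : c1 * x ≤ 3 * t ^ 2 := by
      have : t * (2 * T + t) ≤ t * (3 * t) := mul_le_mul_of_nonneg_left (by linarith) ht0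
      linarith
    have h7 : (c1 * l ^ 2) ^ 2 ≤ t ^ 2 := by
      have h8 : (c1 * l ^ 2) ^ 2 = c1 ^ 2 * l ^ 4 := by ring
      rw [h8]
      have h9 : c1 ^ 2 * l ^ 4 ≤ c1 ^ 2 * (1 / (3 * c1) * x) :=
        mul_le_mul_of_nonneg_left g5 (by positivity)
      have h10 : c1 ^ 2 * (1 / (3 * c1) * x) = c1 * x / 3 := by field_simp
      linarith
    have h8 : c1 * l ^ 2 ≤ t :=
      (pow_le_pow_iff_left₀ (by positivity) ht0 (by norm_num)).1 h7
    refine le_trans ?_ h8
    exact mul_le_mul_of_nonneg_right (min_le_right _ _) (by positivity)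

theorem gap (lam : ℝ) (hlam : 1 / 6 < lam) : ∃ c : ℝ, 0 < c ∧ ∃ x₀ : ℕ, ∀ x : ℕ, x₀ ≤ x →
    (∀ n : ℕ, 2 < n → (n : ℝ) ≤ lam * x → ∃ k m, Ad n k m) →
    c * x ≤ ((Tn x ⌊lam * x * Real.log x⌋₊).card : ℝ) *
      (2 * ((Tw x).card : ℝ) + ((Tn x ⌊lam * x * Real.log x⌋₊).card : ℝ)) ∧
    c * Real.log x ^ 2 ≤ ((Tn x ⌊lam * x * Real.log x⌋₊).card : ℝ) := by
  set e := lam - 1 / 6 with he
  have he0 : 0 < e := by linarith
  have hlam0 : 0 < lam := by linarith
  have tN : Tendsto (fun x : ℕ => (x : ℝ)) atTop atTop := tendsto_natCast_atTop_atTop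
  have tL : Tendsto (fun x : ℕ => Real.log (x : ℝ)) atTop atTop := Real.tendsto_log_atTop.comp tN
  have tY : Tendsto (fun x : ℕ => lam * (x : ℝ) * Real.log x) atTop atTop :=
    (Tendsto.const_mul_atTop hlam0 tN).atTop_mul_atTop₀ tL
  -- the prime number theorem at `y`
  set d := e / (4 * lam) with hd
  have hd0 : 0 < d := by positivity
  have hd1 : d < 1 := by
    rw [hd, div_lt_one (by positivity)]
    linarith
  have h1 := (Pool.Agent.Common_PNT.tendsto_primeCounting.comp tY).eventually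
    (lt_mem_nhds (show 1 - d < (1:ℝ) by linarith))
  -- `log y <= (1 + d) log x`
  have h2 : ∀ᶠ x : ℕ in atTop, Real.log (lam * (x : ℝ) * Real.log x) ≤ (1 + d) * Real.log x := by
    have ha : ∀ᶠ x : ℕ in atTop, lam * Real.log (x : ℝ) ≤ (x : ℝ) ^ d := by
      have := ((isLittleO_log_rpow_atTop hd0).const_mul_left lam).bound (show (0:ℝ) < 1 by norm_num)
      filter_upwards [tN.eventually this, eventually_ge_atTop 1] with x hx hx1
      rw [one_mul, Real.norm_eq_abs, Real.norm_eq_abs] at hx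
      have : (0:ℝ) ≤ (x : ℝ) ^ d := by positivity
      rw [abs_of_nonneg this] at hx
      exact (le_abs_self _).trans hx
    filter_upwards [ha, eventually_ge_atTop 3, tL.eventually_ge_atTop 1] with x hx hx3 hl
    have hx0 : (0:ℝ) < x := by exact_mod_cast (by omega : 0 < x)
    have hl0 : 0 < Real.log (x:ℝ) := by linarith
    have hpos : 0 < lam * (x : ℝ) * Real.log x := by positivity
    have h3 : lam * (x : ℝ) * Real.log x ≤ (x:ℝ) ^ (1 + d) := by
      rw [Real.rpow_add hx0, Real.rpow_one]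
      calc lam * (x : ℝ) * Real.log x = x * (lam * Real.log x) := by ring
        _ ≤ x * (x:ℝ) ^ d := mul_le_mul_of_nonneg_left hx hx0.le
    have h4 := Real.log_le_log hpos h3
    rwa [Real.log_rpow hx0] at h4
  -- `pi(x) <= (e/8) x`
  have h3 : ∀ᶠ x : ℕ in atTop, (Nat.primeCounting x : ℝ) ≤ e / 8 * x := by
    have ha := (Pool.Agent.Common_PNT.tendsto_primeCounting.comp tN).eventually
      (gt_mem_nhds (show (1:ℝ) < 2 by norm_num))
    filter_upwards [ha, tL.eventually_ge_atTop (16 / e), eventually_ge_atTop 3,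
      tL.eventually_ge_atTop 1] with x hx hl hx3 hl1
    simp only [Function.comp, Nat.floor_natCast] at hx
    have hx0 : (0:ℝ) < x := by exact_mod_cast (by omega : 0 < x)
    have hl0 : 0 < Real.log (x:ℝ) := by linarith
    rw [div_lt_iff₀ (by positivity)] at hx
    refine hx.le.trans ?_
    rw [mul_div_assoc', div_le_iff₀ hl0]
    rw [div_le_iff₀ he0] at hl
    nlinarith
  obtain ⟨C, hC, K, htw⟩ := Pool.Agent.Helper99_TwinIdx.twin_large
  set c1 := e / 4 with hc1
  have hc10 : 0 < c1 := by positivity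
  -- the logarithm squared is small
  have h5 : ∀ᶠ x : ℕ in atTop, Real.log (x:ℝ) ^ 4 ≤ (1 / (3 * c1)) * x := by
    have := (isLittleO_log_rpow_atTop (show (0:ℝ) < 1 / 4 by norm_num)).bound
      (show (0:ℝ) < (1 / (3 * c1)) ^ (1 / 4 : ℝ) by positivity)
    filter_upwards [tN.eventually this, eventually_ge_atTop 2] with x hN hN2
    have hNr : (2:ℝ) ≤ x := by exact_mod_cast hN2
    have hl : 0 ≤ Real.log (x:ℝ) := Real.log_nonneg (by linarith)
    rw [Real.norm_eq_abs, Real.norm_eq_abs, abs_of_nonneg hl,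
      abs_of_nonneg (by positivity)] at hN
    have h3 := pow_le_pow_left₀ hl hN 4
    rw [mul_pow, ← Real.rpow_natCast ((x:ℝ) ^ (1 / 4 : ℝ)), ← Real.rpow_mul (by linarith),
      ← Real.rpow_natCast ((1 / (3 * c1)) ^ (1 / 4 : ℝ)), ← Real.rpow_mul (by positivity)] at h3
    norm_num at h3
    norm_num
    exact h3
  refine ⟨min c1 (min (c1 / (3 * C)) c1), by positivity, ?_⟩
  obtain ⟨x₀, hx₀⟩ := eventually_atTop.1 (h1.and (h2.and (h3.and (h5.and ((eventually_ge_atTop K).and
    ((tL.eventually_ge_atTop (6 + 26 / e)).and (tN.eventually_ge_atTop (26 / e + 3))))))))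
  refine ⟨x₀, fun x hx hrep => ?_⟩
  obtain ⟨g1, g2, g3, g5, gK, gL, gx⟩ := hx₀ x hx
  have h16 : 0 < 26 / e := by positivity
  have hx3 : (3:ℝ) ≤ x := by linarith
  have hx0 : (0:ℝ) < x := by linarith
  have hl6 : 6 ≤ Real.log (x:ℝ) := by linarith
  have hl0 : 0 < Real.log (x:ℝ) := by linarith
  set Y := lam * (x:ℝ) * Real.log x with hY
  have hYpos : 0 < Y := by positivity
  set y := ⌊Y⌋₊ with hy
  -- lower bound for `pi(y)`
  set n0 := ⌊(lam - e / 2) * x⌋₊ with hn0
  have hle2 : 0 < lam - e / 2 := by linarith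
  have hn0le : (n0 : ℝ) ≤ (lam - e / 2) * x := Nat.floor_le (by positivity)
  have hn0gt : (lam - e / 2) * x < n0 + 1 := Nat.lt_floor_add_one _
  have hpi : n0 ≤ Nat.primeCounting y := by
    have g1 : 1 - d < (Nat.primeCounting y : ℝ) / (Y / Real.log Y) := g1
    have hlogY : 0 < Real.log Y := by
      apply Real.log_pos
      have : 1 < lam * x * 6 := by nlinarith
      have h6 : lam * x * 6 ≤ lam * x * Real.log x := mul_le_mul_of_nonneg_left hl6 (by positivity)
      linarith
    rw [lt_div_iff₀ (by positivity)] at g1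
    have h7 : (1 - d) * (Y / ((1 + d) * Real.log x)) ≤ (1 - d) * (Y / Real.log Y) := by
      apply mul_le_mul_of_nonneg_left _ (by linarith)
      exact div_le_div_of_nonneg_left hYpos.le hlogY g2
    have h8 : (1 - d) * (Y / ((1 + d) * Real.log x)) = (1 - d) / (1 + d) * (lam * x) := by
      rw [hY]; field_simp
    have h9 : (lam - e / 2) ≤ (1 - d) / (1 + d) * lam := by
      rw [div_mul_eq_mul_div, le_div_iff₀ (by linarith), hd]
      have e1 : (lam - e / 2) * (1 + e / (4 * lam)) = lam - e / 4 - e ^ 2 / (8 * lam) := by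
        field_simp; ring
      have e2 : (1 - e / (4 * lam)) * lam = lam - e / 4 := by field_simp
      rw [e1, e2]
      have : 0 ≤ e ^ 2 / (8 * lam) := by positivity
      linarith
    have h10 : (lam - e / 2) * x ≤ (1 - d) / (1 + d) * (lam * x) := by
      have := mul_le_mul_of_nonneg_right h9 hx0.le
      linarith
    have h11 : (n0 : ℝ) ≤ (Nat.primeCounting y : ℝ) := by
      rw [h8] at h7
      linarith
    exact_mod_cast h11
  have hy6 : 6 * n0 ≤ y := by
    rw [hy, Nat.le_floor_iff hYpos.le]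
    push_cast
    have h6 : lam * x * 6 ≤ Y := mul_le_mul_of_nonneg_left hl6 (by positivity)
    have h7 : (n0 : ℝ) ≤ lam * x := by nlinarith
    linarith
  have hcore := core x y n0 hpi hy6 (by
    intro n h2n hnn
    apply hrep n h2n
    have : (n : ℝ) ≤ n0 := by exact_mod_cast hnn
    nlinarith)
  set t : ℝ := ((Tn x y).card : ℝ) with ht
  set T : ℝ := ((Tw x).card : ℝ) with hT
  have ht0 : 0 ≤ t := Nat.cast_nonneg _
  have hT0 : 0 ≤ T := Nat.cast_nonneg _
  have hcore' : (n0 : ℝ) ≤ 2 + ((x + 1) / 6 + Nat.primeCounting x) + t * (2 * T + t) := by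
    have h6 : ((n0 : ℕ) : ℝ) ≤ ((2 + ((x + 1) / 6 + Nat.primeCounting x)
        + (Tn x y).card * (2 * (Tw x).card + (Tn x y).card) : ℕ) : ℝ) := Nat.cast_le.2 hcore
    push_cast at h6
    have h7 : (((x + 1) / 6 : ℕ) : ℝ) ≤ ((x:ℝ) + 1) / 6 := by
      have := Nat.cast_div_le (α := ℝ) (m := x + 1) (n := 6)
      push_cast at this
      exact this
    linarith
  have hmain : c1 * x ≤ t * (2 * T + t) := by
    have h6 : (26:ℝ) ≤ e * x := by
      have : 26 / e ≤ x := by linarith
      rwa [div_le_iff₀ he0, mul_comm] at this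
    have h7 : lam = e + 1 / 6 := by rw [he]; ring
    rw [h7] at hn0gt
    have h8 : (e + 1 / 6 - e / 2) * x = e * x / 2 + x / 6 := by ring
    rw [h8] at hn0gt
    rw [hc1]
    linarith
  constructor
  · calc min c1 (min (c1 / (3 * C)) c1) * x ≤ c1 * x :=
        mul_le_mul_of_nonneg_right (min_le_left _ _) hx0.le
      _ ≤ _ := hmain
  · have hTC : T ≤ C * x / Real.log x ^ 2 := by
      have h6 := htw x gK
      exact h6
    have h7 := final_gap c1 C x (Real.log x) t T hc10 hC hx0 hl0 ht0 hmain hTC g5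
    refine le_trans ?_ h7
    exact mul_le_mul_of_nonneg_right (min_le_right _ _) (by positivity)

end Pool.Agent.Helper75_TI
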