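import Pool.Agent.Helper75_TI.Energy

set_option autoImplicit false

/-!
The number of integers with an admissible decomposition in terms of the number of twin primes.
-/

namespace Pool.Agent.Helper75_TI

open Finset Filter
open scoped Pointwise

lemma card_dist_le (Bad B : Finset ℕ) (m : ℕ) :
    (B.filter (fun m₂ => Nat.dist m m₂ ∈ Bad)).card ≤ 2 * Bad.card := by
  have h1 : B.filter (fun m₂ => Nat.dist m m₂ ∈ Bad) ⊆
      Bad.image (fun h => m + h) ∪ Bad.image (fun h => m - h) := by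
    intro m₂ hm
    have h2 := (Finset.mem_filter.1 hm).2
    rw [Finset.mem_union, Finset.mem_image, Finset.mem_image]
    rcases Nat.le_total m m₂ with h | h
    · left
      rw [Nat.dist_eq_sub_of_le h] at h2
      exact ⟨m₂ - m, h2, by omega⟩
    · right
      rw [Nat.dist_eq_sub_of_le_right h] at h2
      exact ⟨m - m₂, h2, by omega⟩
  have h3 := Finset.card_le_card h1
  have h4 := Finset.card_union_le (Bad.image (fun h => m + h)) (Bad.image (fun h => m - h))
  have h5 := Finset.card_image_le (s := Bad) (f := fun h => m + h)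
  have h6 := Finset.card_image_le (s := Bad) (f := fun h => m - h)
  omega

/-- the energy bound -/
theorem energy_bound : ∃ C : ℝ, 1 ≤ C ∧ ∀ᶠ N : ℕ in atTop, ∀ A B : Finset ℕ,
    (∀ k ∈ A, TW k ∧ k ≤ N) → (∀ m ∈ B, 1 ≤ m ∧ m ≤ N) →
    (Finset.addEnergy A B : ℝ) ≤ A.card * B.card + C * (N / Real.log N ^ 4) *
      (Real.log (Real.log (Real.log N)) ^ 2 * B.card ^ 2
        + 2 * C * B.card * (N / Real.log N ^ 18)) := by
  obtain ⟨C0, hC0, hev⟩ := gg_le
  refine ⟨C0 + 1, by linarith, ?_⟩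
  have tL : Tendsto (fun N : ℕ => Real.log N) atTop atTop :=
    Real.tendsto_log_atTop.comp tendsto_natCast_atTop_atTop
  filter_upwards [hev, tL.eventually_ge_atTop 2] with N hN hL2 A B hA hB
  obtain ⟨Bad, hBad, hgg⟩ := hN
  set L := Real.log N with hL
  set l := Real.log (Real.log L) with hl
  have hL0 : 0 < L := by linarith
  have hNL : (0:ℝ) ≤ N / L ^ 4 := by positivity
  have h1 : (Finset.addEnergy A B : ℝ) ≤ ∑ m₁ ∈ B, ∑ m₂ ∈ B,
      (if m₁ = m₂ then (A.card : ℝ) else (gg N (Nat.dist m₁ m₂) : ℝ)) := by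
    have := energy_le N A B hA
    have h2 : ((∑ m₁ ∈ B, ∑ m₂ ∈ B, (if m₁ = m₂ then A.card else gg N (Nat.dist m₁ m₂)) : ℕ) : ℝ)
        = ∑ m₁ ∈ B, ∑ m₂ ∈ B,
      (if m₁ = m₂ then (A.card : ℝ) else (gg N (Nat.dist m₁ m₂) : ℝ)) := by
      push_cast
      rfl
    rw [← h2]
    exact_mod_cast this
  refine h1.trans ?_
  have h2 : ∀ m₁ ∈ B, ∑ m₂ ∈ B,
      (if m₁ = m₂ then (A.card : ℝ) else (gg N (Nat.dist m₁ m₂) : ℝ))
      ≤ A.card + C0 * (N / L ^ 4) * (l ^ 2 * B.card + 2 * C0 * (N / L ^ 18)) := by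
    intro m₁ hm₁
    have h3 : ∀ m₂ ∈ B, (if m₁ = m₂ then (A.card : ℝ) else (gg N (Nat.dist m₁ m₂) : ℝ))
        ≤ (if m₁ = m₂ then (A.card : ℝ) else 0)
          + C0 * (N / L ^ 4) * (l ^ 2 + L ^ 2 * (if Nat.dist m₁ m₂ ∈ Bad then 1 else 0)) := by
      intro m₂ hm₂
      by_cases h : m₁ = m₂
      · rw [if_pos h, if_pos h]
        have : 0 ≤ C0 * (N / L ^ 4) * (l ^ 2 + L ^ 2 * (if Nat.dist m₁ m₂ ∈ Bad then (1:ℝ) else 0)) := by
          apply mul_nonneg (by positivity)
          split_ifs <;> positivity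
        linarith
      · rw [if_neg h, if_neg h, zero_add]
        have hb1 := hB m₁ hm₁
        have hb2 := hB m₂ hm₂
        have hd1 : 1 ≤ Nat.dist m₁ m₂ := by
          have := Nat.dist_pos_of_ne h
          omega
        have hd2 : Nat.dist m₁ m₂ ≤ N := by
          unfold Nat.dist; omega
        refine (hgg _ hd1 hd2).trans ?_
        apply mul_le_mul_of_nonneg_left _ (by positivity)
        split_ifs
        · have := sq_nonneg l
          linarith
        · linarith
    refine (Finset.sum_le_sum h3).trans ?_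
    rw [Finset.sum_add_distrib, Finset.sum_ite_eq, if_pos hm₁, ← Finset.mul_sum,
      Finset.sum_add_distrib, Finset.sum_const, nsmul_eq_mul, ← Finset.mul_sum, Finset.sum_boole]
    have h4 := card_dist_le Bad B m₁
    have h5 : ((B.filter (fun m₂ => Nat.dist m₁ m₂ ∈ Bad)).card : ℝ) ≤ 2 * (C0 * N / L ^ 20) := by
      have : ((B.filter (fun m₂ => Nat.dist m₁ m₂ ∈ Bad)).card : ℝ) ≤ 2 * Bad.card := by
        exact_mod_cast h4
      linarith
    have h6 : L ^ 2 * ((B.filter (fun m₂ => Nat.dist m₁ m₂ ∈ Bad)).card : ℝ)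
        ≤ 2 * C0 * (N / L ^ 18) := by
      calc _ ≤ L ^ 2 * (2 * (C0 * N / L ^ 20)) := mul_le_mul_of_nonneg_left h5 (by positivity)
        _ = 2 * C0 * (N / L ^ 18) := by field_simp
    have h7 : 0 ≤ C0 * (N / L ^ 4) := by positivity
    have h8 := mul_le_mul_of_nonneg_left h6 h7
    have e : C0 * (N / L ^ 4) * (B.card * l ^ 2
        + L ^ 2 * ((B.filter (fun m₂ => Nat.dist m₁ m₂ ∈ Bad)).card : ℝ))
        = C0 * (N / L ^ 4) * (l ^ 2 * B.card)
          + C0 * (N / L ^ 4) * (L ^ 2 * ((B.filter (fun m₂ => Nat.dist m₁ m₂ ∈ Bad)).card : ℝ)) := by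
      ring
    rw [e]
    linarith
  refine (Finset.sum_le_sum h2).trans ?_
  rw [Finset.sum_const, nsmul_eq_mul]
  have hb : (0:ℝ) ≤ B.card := Nat.cast_nonneg _
  have hx : 0 ≤ (N / L ^ 4) * (l ^ 2 * (B.card : ℝ) ^ 2) := by positivity
  have hy : 0 ≤ (N / L ^ 4) * (2 * B.card * (N / L ^ 18)) := by positivity
  have e1 : (B.card : ℝ) * (A.card + C0 * (N / L ^ 4) * (l ^ 2 * B.card + 2 * C0 * (N / L ^ 18)))
      = A.card * B.card + C0 * ((N / L ^ 4) * (l ^ 2 * (B.card : ℝ) ^ 2))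
        + C0 ^ 2 * ((N / L ^ 4) * (2 * B.card * (N / L ^ 18))) := by ring
  have e2 : (A.card : ℝ) * B.card + (C0 + 1) * (N / L ^ 4) *
      (l ^ 2 * B.card ^ 2 + 2 * (C0 + 1) * B.card * (N / L ^ 18))
      = A.card * B.card + (C0 + 1) * ((N / L ^ 4) * (l ^ 2 * (B.card : ℝ) ^ 2))
        + (C0 + 1) ^ 2 * ((N / L ^ 4) * (2 * B.card * (N / L ^ 18))) := by ring
  rw [e1, e2]
  have h9 : C0 ^ 2 ≤ (C0 + 1) ^ 2 := by nlinarith
  nlinarith

/-- the twin primes up to `N` -/
def Tw (N : ℕ) : Finset ℕ := (range (N + 1)).filter (fun p => p.Prime ∧ (p + 2).Prime)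

/-- indices `k` with `6k-1 <= N`, `6k-1, 6k+1` prime -/
def setA (N : ℕ) : Finset ℕ := (range (N + 1)).filter (fun k => 0 < k ∧ TW k ∧ 6 * k - 1 ≤ N)

/-- indices `m` of the twin primes `p_m <= N` -/
def setB (N : ℕ) : Finset ℕ := (Tw N).image Nat.primeCounting

lemma card_setB (N : ℕ) : (setB N).card = (Tw N).card := by
  apply Finset.card_image_of_injOn
  intro p hp q hq hpq
  have hp' := (Finset.mem_filter.1 (Finset.mem_coe.1 hp)).2.1
  have hq' := (Finset.mem_filter.1 (Finset.mem_coe.1 hq)).2.1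
  simp only [Nat.primeCounting, Nat.primeCounting'] at hpq
  rw [Nat.count_succ, Nat.count_succ, if_pos hp', if_pos hq'] at hpq
  exact Nat.count_injective hp' hq' (by omega)

lemma setB_spec (N : ℕ) (m : ℕ) (hm : m ∈ setB N) : 1 ≤ m ∧ m ≤ N / 2 + 1 ∧
    (Nat.nth Nat.Prime (m - 1) + 2).Prime := by
  obtain ⟨p, hp, rfl⟩ := Finset.mem_image.1 hm
  obtain ⟨hp1, hp2, hp3⟩ := Finset.mem_filter.1 hp
  rw [Finset.mem_range] at hp1
  have e : Nat.primeCounting p = Nat.count Nat.Prime p + 1 := by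
    simp only [Nat.primeCounting, Nat.primeCounting']
    rw [Nat.count_succ, if_pos hp2]
  refine ⟨by omega, ?_, ?_⟩
  · have h1 : Nat.primeCounting p ≤ Nat.primeCounting N := Nat.monotone_primeCounting (by omega)
    have h2 := Nat.primeCounting'_add_le (a := 2) (k := 3) (by norm_num) (by norm_num) (N - 2)
    have h3 : Nat.primeCounting' 3 = 1 := by decide
    have h4 : Nat.totient 2 = 1 := by decide
    have hN : 2 ≤ N := by have := hp2.two_le; omega
    rw [h3, h4, show 3 + (N - 2) = N + 1 by omega] at h2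
    have h5 : Nat.primeCounting N = Nat.primeCounting' (N + 1) := rfl
    omega
  · rw [e, Nat.add_sub_cancel, Nat.nth_count hp2]
    exact hp3

lemma twin_mod {p : ℕ} (hp : p.Prime) (hp2 : (p + 2).Prime) (h3 : p ≠ 3) : p % 6 = 5 := by
  have h2 := hp.two_le
  have a2 : p % 2 ≠ 0 := by
    intro h
    have h4 : 2 = p := (Nat.prime_dvd_prime_iff_eq Nat.prime_two hp).1 (Nat.dvd_of_mod_eq_zero h)
    subst h4
    revert hp2; decide
  have a3 : p % 3 ≠ 0 := by
    intro h
    have h4 : 3 = p := (Nat.prime_dvd_prime_iff_eq Nat.prime_three hp).1 (Nat.dvd_of_mod_eq_zero h)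
    exact h3 h4.symm
  have a4 : (p + 2) % 3 ≠ 0 := by
    intro h
    have h4 : 3 = p + 2 :=
      (Nat.prime_dvd_prime_iff_eq Nat.prime_three hp2).1 (Nat.dvd_of_mod_eq_zero h)
    omega
  have h6 : p % 6 = 0 ∨ p % 6 = 1 ∨ p % 6 = 2 ∨ p % 6 = 3 ∨ p % 6 = 4 ∨ p % 6 = 5 := by omega
  rcases h6 with h | h | h | h | h | h
  · exact absurd (by omega : p % 2 = 0) a2
  · exact absurd (by omega : (p + 2) % 3 = 0) a4
  · exact absurd (by omega : p % 2 = 0) a2
  · exact absurd (by omega : p % 3 = 0) a3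
  · exact absurd (by omega : p % 2 = 0) a2
  · exact h

lemma card_setA (N : ℕ) : (Tw N).card ≤ (setA N).card + 1 := by
  have key : ∀ p ∈ (Tw N).erase 3, p % 6 = 5 ∧ p.Prime ∧ (p + 2).Prime ∧ p ≤ N := by
    intro p hp
    obtain ⟨hp3, hpT⟩ := Finset.mem_erase.1 hp
    obtain ⟨hp1, hp2, hp4⟩ := Finset.mem_filter.1 hpT
    rw [Finset.mem_range] at hp1
    exact ⟨twin_mod hp2 hp4 hp3, hp2, hp4, by omega⟩
  have h1 : ((Tw N).erase 3).card ≤ (setA N).card := by
    apply Finset.card_le_card_of_injOn (fun p => (p + 1) / 6)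
    · intro p hp
      obtain ⟨hmod, hp2, hp4, hpN⟩ := key p (Finset.mem_coe.1 hp)
      apply Finset.mem_coe.2
      apply Finset.mem_filter.2
      have e1 : 6 * ((p + 1) / 6) - 1 = p := by omega
      have e2 : 6 * ((p + 1) / 6) + 1 = p + 2 := by omega
      refine ⟨Finset.mem_range.2 (by show (p + 1) / 6 < N + 1; omega), ?_, ⟨?_, ?_⟩, ?_⟩
      · show 0 < (p + 1) / 6
        omega
      · show (6 * ((p + 1) / 6) - 1).Prime
        rw [e1]; exact hp2
      · show (6 * ((p + 1) / 6) + 1).Prime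
        rw [e2]; exact hp4
      · show 6 * ((p + 1) / 6) - 1 ≤ N
        omega
    · intro p hp q hq hpq
      have h1 := (key p (Finset.mem_coe.1 hp)).1
      have h2 := (key q (Finset.mem_coe.1 hq)).1
      simp only at hpq
      omega
  have h2 := Finset.pred_card_le_card_erase (s := Tw N) (a := 3)
  omega

/-- the final numerical step -/
lemma final_num (C a b r L l En : ℝ) (N : ℝ) (hC0 : 0 < C) (hN0 : 0 < N) (hL2 : 2 ≤ L)
    (hl1 : 1 ≤ l) (hp4 : L ^ 4 ≤ N) (ha0 : 0 < a) (hab : b ≤ 2 * a) (hba : a ≤ b) (hra : a ≤ r)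
    (hen : En ≤ a * b + C * (N / L ^ 4) * (l ^ 2 * b ^ 2 + 2 * C * b * (N / L ^ 18)))
    (hcs : a ^ 2 * b ^ 2 ≤ r * En) :
    b ^ 2 * L ^ 4 ≤ r * N * l ^ 2 * (4 * (1 + C + 2 * C ^ 2)) := by
  have hL0 : 0 < L := by linarith
  have hb0 : 0 < b := by linarith
  have hr0 : 0 < r := by linarith
  have hK : 0 < 1 + C + 2 * C ^ 2 := by positivity
  have hl2 : 1 ≤ l ^ 2 := by nlinarith
  have hC2 : 0 ≤ C ^ 2 := sq_nonneg C
  rcases le_or_gt (N / L ^ 18) b with hcase | hcase
  · -- many twin primes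
    have h1 : 1 ≤ N / L ^ 4 := by rw [le_div_iff₀ (by positivity)]; linarith
    have hb20 : 0 < b ^ 2 := by positivity
    have h2 : a * b ≤ (N / L ^ 4) * b ^ 2 := by
      have h3 : a * b ≤ b ^ 2 := by nlinarith
      have h4 : 1 * b ^ 2 ≤ (N / L ^ 4) * b ^ 2 := mul_le_mul_of_nonneg_right h1 hb20.le
      linarith
    have h3 : En ≤ (N / L ^ 4) * b ^ 2 * ((1 + C + 2 * C ^ 2) * l ^ 2) := by
      have h4 : 2 * C * b * (N / L ^ 18) ≤ 2 * C * b ^ 2 := by
        have : 2 * C * b * (N / L ^ 18) ≤ 2 * C * b * b :=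
          mul_le_mul_of_nonneg_left hcase (by positivity)
        linarith
      have h5 : C * (N / L ^ 4) * (l ^ 2 * b ^ 2 + 2 * C * b * (N / L ^ 18))
          ≤ C * (N / L ^ 4) * (l ^ 2 * b ^ 2 + 2 * C * b ^ 2) :=
        mul_le_mul_of_nonneg_left (by linarith) (by positivity)
      have h6 : 0 ≤ (N / L ^ 4) * b ^ 2 := by positivity
      have e : (N / L ^ 4) * b ^ 2 + C * (N / L ^ 4) * (l ^ 2 * b ^ 2 + 2 * C * b ^ 2)
          = (N / L ^ 4) * b ^ 2 * (1 + C * l ^ 2 + 2 * C ^ 2) := by ring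
      have h7 : 1 + C * l ^ 2 + 2 * C ^ 2 ≤ (1 + C + 2 * C ^ 2) * l ^ 2 := by
        have h8 : C ^ 2 * 1 ≤ C ^ 2 * l ^ 2 := mul_le_mul_of_nonneg_left hl2 hC2
        linarith
      have h9 := mul_le_mul_of_nonneg_left h7 h6
      linarith
    have h4 : a ^ 2 * b ^ 2 ≤ r * ((N / L ^ 4) * b ^ 2 * ((1 + C + 2 * C ^ 2) * l ^ 2)) :=
      hcs.trans (mul_le_mul_of_nonneg_left h3 hr0.le)
    have h5 : a ^ 2 ≤ r * ((N / L ^ 4) * ((1 + C + 2 * C ^ 2) * l ^ 2)) := by
      have e : r * ((N / L ^ 4) * b ^ 2 * ((1 + C + 2 * C ^ 2) * l ^ 2))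
          = r * ((N / L ^ 4) * ((1 + C + 2 * C ^ 2) * l ^ 2)) * b ^ 2 := by ring
      rw [e] at h4
      exact le_of_mul_le_mul_right h4 hb20
    have h6 : b ^ 2 ≤ 4 * a ^ 2 := by nlinarith
    have h7 : b ^ 2 * L ^ 4 ≤ 4 * (r * ((N / L ^ 4) * ((1 + C + 2 * C ^ 2) * l ^ 2))) * L ^ 4 :=
      mul_le_mul_of_nonneg_right (by linarith) (by positivity)
    refine h7.trans (le_of_eq ?_)
    field_simp
  · -- few twin primes
    have h1 : b * L ^ 4 ≤ N := by
      have h2 : b * L ^ 18 ≤ N := by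
        rw [lt_div_iff₀ (by positivity)] at hcase
        exact hcase.le
      have h3 : L ^ 4 ≤ L ^ 18 := pow_le_pow_right₀ (by linarith) (by norm_num)
      have h4 := mul_le_mul_of_nonneg_left h3 hb0.le
      linarith
    have h2 : b ^ 2 * L ^ 4 ≤ 2 * r * N := by
      have h3 : b ^ 2 * L ^ 4 = b * (b * L ^ 4) := by ring
      rw [h3]
      have h4 : b ≤ 2 * r := by linarith
      have h5 : 0 ≤ b * L ^ 4 := by positivity
      calc b * (b * L ^ 4) ≤ (2 * r) * (b * L ^ 4) := mul_le_mul_of_nonneg_right h4 h5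
        _ ≤ (2 * r) * N := mul_le_mul_of_nonneg_left h1 (by positivity)
    have h3 : 2 * r * N ≤ r * N * l ^ 2 * (4 * (1 + C + 2 * C ^ 2)) := by
      have h4 : 0 ≤ r * N := by positivity
      have h5 : (2:ℝ) ≤ l ^ 2 * (4 * (1 + C + 2 * C ^ 2)) := by
        have h6 : 1 ≤ 1 + C + 2 * C ^ 2 := by linarith
        nlinarith
      calc 2 * r * N = (r * N) * 2 := by ring
        _ ≤ (r * N) * (l ^ 2 * (4 * (1 + C + 2 * C ^ 2))) := mul_le_mul_of_nonneg_left h5 h4
        _ = _ := by ring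
    linarith

/-- Main theorem: represented numbers. -/
theorem main : ∃ c : ℝ, 0 < c ∧ ∃ N₀ : ℕ, ∀ N : ℕ, N₀ ≤ N →
    c * ((Tw N).card : ℝ) ^ 2 * Real.log N ^ 4 ≤
      ((setA N + setB N).card : ℝ) * N * Real.log (Real.log (Real.log N)) ^ 2 := by
  obtain ⟨C, hC1, hev⟩ := energy_bound
  have hC0 : 0 < C := by linarith
  refine ⟨1 / (4 * (1 + C + 2 * C ^ 2)), by positivity, ?_⟩
  have tL : Tendsto (fun N : ℕ => Real.log N) atTop atTop :=
    Real.tendsto_log_atTop.comp tendsto_natCast_atTop_atTop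
  have tLL : Tendsto (fun N : ℕ => Real.log (Real.log N)) atTop atTop :=
    Real.tendsto_log_atTop.comp tL
  have tLLL : Tendsto (fun N : ℕ => Real.log (Real.log (Real.log N))) atTop atTop :=
    Real.tendsto_log_atTop.comp tLL
  have tpow : ∀ᶠ N : ℕ in atTop, Real.log N ^ 4 ≤ N := by
    have := (isLittleO_log_rpow_atTop (show (0:ℝ) < 1 / 4 by norm_num)).bound
      (show (0:ℝ) < 1 by norm_num)
    have h2 := tendsto_natCast_atTop_atTop.eventually this
    filter_upwards [h2, eventually_ge_atTop 2] with N hN hN2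
    have hNr : (2:ℝ) ≤ N := by exact_mod_cast hN2
    have hl : 0 ≤ Real.log N := Real.log_nonneg (by linarith)
    rw [one_mul, Real.norm_eq_abs, Real.norm_eq_abs, abs_of_nonneg hl,
      abs_of_nonneg (by positivity)] at hN
    have h3 := pow_le_pow_left₀ hl hN 4
    rw [← Real.rpow_natCast ((N:ℝ) ^ (1 / 4 : ℝ)), ← Real.rpow_mul (by linarith)] at h3
    norm_num at h3
    exact h3
  have hfin : ∀ᶠ N : ℕ in atTop, 1 / (4 * (1 + C + 2 * C ^ 2)) * ((Tw N).card : ℝ) ^ 2 * Real.log N ^ 4 ≤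
      ((setA N + setB N).card : ℝ) * N * Real.log (Real.log (Real.log N)) ^ 2 := by
    filter_upwards [hev, tL.eventually_ge_atTop 2, tLLL.eventually_ge_atTop 1, tpow,
      eventually_ge_atTop 100] with N hN hL2 hl1 hp4 hN100
    have hen := hN (setA N) (setB N)
      (by
        intro k hk
        obtain ⟨h1, h2, h3, h4⟩ := Finset.mem_filter.1 hk
        exact ⟨h3, by rw [Finset.mem_range] at h1; omega⟩)
      (by
        intro m hm
        obtain ⟨h1, h2, h3⟩ := setB_spec N m hm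
        exact ⟨h1, by omega⟩)
    have hcs := Finset.le_card_add_mul_addEnergy (setA N) (setB N)
    have hcs' : ((setA N).card : ℝ) ^ 2 * (setB N).card ^ 2
        ≤ ((setA N + setB N).card : ℝ) * (Finset.addEnergy (setA N) (setB N) : ℝ) := by
      exact_mod_cast hcs
    rw [card_setB] at hen hcs'
    set b : ℝ := ((Tw N).card : ℝ) with hb
    set a : ℝ := ((setA N).card : ℝ) with ha
    set r : ℝ := ((setA N + setB N).card : ℝ) with hr
    set L := Real.log N with hL
    set l := Real.log (Real.log L) with hl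
    set En : ℝ := (Finset.addEnergy (setA N) (setB N) : ℝ) with hEn
    have hL0 : 0 < L := by linarith
    have hN0 : (0:ℝ) < N := by positivity
    have hT3 : 3 ∈ Tw N := by
      unfold Tw
      rw [Finset.mem_filter, Finset.mem_range]
      exact ⟨by omega, by norm_num, by norm_num⟩
    have hT5 : 5 ∈ Tw N := by
      unfold Tw
      rw [Finset.mem_filter, Finset.mem_range]
      exact ⟨by omega, by norm_num, by norm_num⟩
    have hb2 : 2 ≤ b := by
      have h1 : ({3, 5} : Finset ℕ) ⊆ Tw N := by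
        intro x hx
        rw [Finset.mem_insert, Finset.mem_singleton] at hx
        rcases hx with rfl | rfl
        · exact hT3
        · exact hT5
      have h2 := Finset.card_le_card h1
      have h3 : ({3, 5} : Finset ℕ).card = 2 := by decide
      rw [h3] at h2
      have h4 : ((2:ℕ) : ℝ) ≤ ((Tw N).card : ℝ) := Nat.cast_le.2 h2
      rw [hb]
      exact_mod_cast h4
    have hab : b ≤ 2 * a := by
      have h1 : b ≤ a + 1 := by
        rw [hb, ha]
        exact_mod_cast card_setA N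
      linarith
    have hba : a ≤ b := by
      have h1 : (setA N).card ≤ (Tw N).card := by
        apply Finset.card_le_card_of_injOn (fun k => 6 * k - 1)
        · intro k hk
          obtain ⟨h1, h2, h3, h4⟩ := Finset.mem_filter.1 (Finset.mem_coe.1 hk)
          apply Finset.mem_coe.2
          apply Finset.mem_filter.2
          refine ⟨Finset.mem_range.2 (by show 6 * k - 1 < N + 1; omega), h3.1, ?_⟩
          show (6 * k - 1 + 2).Prime
          have : 6 * k - 1 + 2 = 6 * k + 1 := by omega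
          rw [this]
          exact h3.2
        · intro k hk k' hk' hkk
          have h2 := (Finset.mem_filter.1 (Finset.mem_coe.1 hk)).2.1
          have h3 := (Finset.mem_filter.1 (Finset.mem_coe.1 hk')).2.1
          simp only at hkk
          omega
      rw [hb, ha]
      exact_mod_cast h1
    have ha0 : 0 < a := by linarith
    have hra : a ≤ r := by
      have hne : (setB N).Nonempty := ⟨Nat.primeCounting 3, Finset.mem_image_of_mem _ hT3⟩
      have h1 := Finset.card_le_card_add_right (s := setA N) hne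
      rw [ha, hr]
      exact Nat.cast_le.2 h1
    have hK : 0 < 1 + C + 2 * C ^ 2 := by positivity
    rw [div_mul_eq_mul_div, div_mul_eq_mul_div, one_mul, div_le_iff₀ (by positivity)]
    exact final_num C a b r L l En N hC0 hN0 hL2 hl1 hp4 ha0 hab hba hra hen hcs'
  obtain ⟨N₀, h⟩ := eventually_atTop.1 hfin
  exact ⟨N₀, h⟩

end Pool.Agent.Helper75_TI
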