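import Pool.Agent.Common_Sieve.Primes

set_option autoImplicit false

/-!
Brun-Hooley upper bound sieve of dimension four, with error terms `<= prod p`.
-/

namespace Pool.Agent.Helper75_TI

open Finset Pool.Agent.Common_Sieve

/-- averaging of a product of local functionals, error terms up to the product of the primes -/
lemma avgP {α : Type*} (X : Finset α) (ind : α → ℕ → ℝ) (g : ℕ → ℝ) (M : ℝ)
    (blk : ℕ → Finset ℕ) (T : ℕ → Finset (Finset ℕ)) (w : ℕ → Finset ℕ → ℝ)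
    (hdisj : ∀ i j, i ≠ j → Disjoint (blk i) (blk j)) (hT : ∀ r, T r ⊆ (blk r).powerset)
    (hw : ∀ r, ∀ D ∈ T r, |w r D| ≤ 1) (hblk : ∀ r, ∀ p ∈ blk r, p.Prime)
    (R : ℕ) (x c : ℕ → ℕ) (hx : ∀ r, ∀ p ∈ blk r, p ≤ x r) (hx1 : ∀ r, 1 ≤ x r)
    (hc : ∀ r, ∀ D ∈ T r, D.card ≤ c r)
    (herr : ∀ D : Finset ℕ, D ⊆ (range R).biUnion blk →
      |∑ n ∈ X, ∏ p ∈ D, ind n p - M * ∏ p ∈ D, g p| ≤ ∏ p ∈ D, (p : ℝ)) :
    |∑ n ∈ X, ∏ r ∈ range R, loc (T r) (w r) (ind n) - M * ∏ r ∈ range R, loc (T r) (w r) g|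
      ≤ ((∏ r ∈ range R, x r ^ c r : ℕ) : ℝ) ^ 2 := by
  set Z := ∏ r ∈ range R, x r ^ c r with hZ
  have e1 : ∀ n ∈ X, ∏ r ∈ range R, loc (T r) (w r) (ind n)
      = ∑ D ∈ fam blk T R, lam blk w R D * ∏ p ∈ D, ind n p :=
    fun n _ => expand blk T w hdisj hT (ind n) R
  rw [Finset.sum_congr rfl e1, expand blk T w hdisj hT g R, Finset.sum_comm, Finset.mul_sum,
    ← Finset.sum_sub_distrib]
  have hfamsub : ∀ D ∈ fam blk T R, D ⊆ (range R).biUnion blk := by
    intro D hD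
    exact Finset.mem_powerset.1 (Finset.mem_filter.1 hD).1
  have hprime : ∀ D ∈ fam blk T R, ∀ p ∈ D, p.Prime := by
    intro D hD p hp
    obtain ⟨r, _, hr⟩ := Finset.mem_biUnion.1 (hfamsub D hD hp)
    exact hblk r p hr
  have hlam : ∀ D ∈ fam blk T R, |lam blk w R D| ≤ 1 := by
    intro D hD
    unfold lam
    rw [Finset.abs_prod]
    apply Finset.prod_le_one
    · intro r _; exact abs_nonneg _
    · intro r hr
      exact hw r _ ((Finset.mem_filter.1 hD).2 r hr)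
  have hb : ∀ D ∈ fam blk T R,
      |∑ n ∈ X, lam blk w R D * ∏ p ∈ D, ind n p - M * (lam blk w R D * ∏ p ∈ D, g p)|
        ≤ (Z : ℝ) := by
    intro D hD
    have h1 : ∑ n ∈ X, lam blk w R D * ∏ p ∈ D, ind n p - M * (lam blk w R D * ∏ p ∈ D, g p)
        = lam blk w R D * (∑ n ∈ X, ∏ p ∈ D, ind n p - M * ∏ p ∈ D, g p) := by
      rw [← Finset.mul_sum]; ring
    rw [h1, abs_mul]
    calc |lam blk w R D| * |∑ n ∈ X, ∏ p ∈ D, ind n p - M * ∏ p ∈ D, g p|
        ≤ 1 * ∏ p ∈ D, (p : ℝ) := by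
          apply mul_le_mul (hlam D hD) (herr D (hfamsub D hD)) (abs_nonneg _) zero_le_one
      _ ≤ (Z : ℝ) := by
          rw [one_mul]
          have h2 : ∏ p ∈ D, p ≤ Z := prod_le_of_mem_fam hdisj hx hx1 hc hD
          have h3 : ((∏ p ∈ D, p : ℕ) : ℝ) = ∏ p ∈ D, (p : ℝ) := Nat.cast_prod _ _
          rw [← h3]
          exact Nat.cast_le.2 h2
  have hcard : ((fam blk T R).card : ℝ) ≤ Z := by
    have := card_le_of_prod_le (fam blk T R) hprime Z
      (fun D hD => prod_le_of_mem_fam hdisj hx hx1 hc hD)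
    exact_mod_cast this
  calc _ ≤ ∑ D ∈ fam blk T R,
      |∑ n ∈ X, lam blk w R D * ∏ p ∈ D, ind n p - M * (lam blk w R D * ∏ p ∈ D, g p)| :=
        Finset.abs_sum_le_sum_abs _ _
    _ ≤ ∑ D ∈ fam blk T R, (Z : ℝ) := Finset.sum_le_sum hb
    _ = (fam blk T R).card * (Z : ℝ) := by rw [Finset.sum_const, nsmul_eq_mul]
    _ ≤ (Z : ℝ) * Z := by
        apply mul_le_mul_of_nonneg_right hcard
        positivity
    _ = (Z : ℝ) ^ 2 := by ring

lemma blk_sum_le4 {z : ℕ} (hz : 1 ≤ z) {S : Finset ℕ} (hS : ∀ p ∈ S, p.Prime) {g : ℕ → ℝ}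
    (hg : ∀ p ∈ S, g p ≤ 4 / p) (r : ℕ) : ∑ p ∈ blk z S r, g p ≤ 24 := by
  have h := blk_sum_le (g := fun p => g p / 2) hz hS (fun p hp => by
    have h1 := hg p hp
    have h2 : (4:ℝ) / p = 2 * (2 / p) := by ring
    linarith) r
  rw [← Finset.sum_div] at h
  linarith

/-- the relative error of the sieve -/
noncomputable def eps4 (B : ℕ) : ℝ := Real.exp 168 * (1 / 16) ^ B

/-- conditions on the sieving data, dimension four -/
structure Data4 (z : ℕ) (S : Finset ℕ) (g : ℕ → ℝ) : Prop where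
  one_le : 1 ≤ z
  prime : ∀ p ∈ S, p.Prime
  lt : ∀ p ∈ S, p < z
  nonneg : ∀ p, 0 ≤ g p
  le : ∀ p ∈ S, g p ≤ 2 / 3
  le' : ∀ p ∈ S, g p ≤ 4 / p

variable {z : ℕ} {S : Finset ℕ} {g : ℕ → ℝ}

lemma V_blk_ge4 (h : Data4 z S g) (r : ℕ) :
    Real.exp (-72) ≤ ∏ p ∈ blk z S r, (1 - g p) := by
  have h1 : Real.exp (-(3 * ∑ p ∈ blk z S r, g p)) ≤ ∏ p ∈ blk z S r, (1 - g p) := by
    rw [Finset.mul_sum, ← Finset.sum_neg_distrib, Real.exp_sum]
    apply Finset.prod_le_prod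
    · intro p _; positivity
    · intro p hp
      exact one_sub_ge_exp (h.nonneg p) (h.le p (blk_subset z S r hp))
  refine le_trans ?_ h1
  rw [Real.exp_le_exp]
  have := blk_sum_le4 h.one_le h.prime h.le' r
  linarith

lemma E_le4 (h : Data4 z S g) (B r : ℕ) :
    esum g (blk z S r) (bb B r + 1) ≤ Real.exp 96 * (1 / 4) ^ (bb B r + 1) := by
  have h1 := esum_le g (blk z S r) (fun p _ => h.nonneg p) (bb B r + 1)
  have h2 := blk_sum_le4 h.one_le h.prime h.le' r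
  have h3 : 0 ≤ ∑ p ∈ blk z S r, g p := Finset.sum_nonneg (fun p _ => h.nonneg p)
  set m := bb B r + 1 with hm
  have h4 : (∑ p ∈ blk z S r, g p) ^ m / (m.factorial : ℝ) ≤ 24 ^ m / (m.factorial : ℝ) := by
    apply div_le_div_of_nonneg_right _ (by positivity)
    exact pow_le_pow_left₀ h3 h2 m
  have h5 : (96:ℝ) ^ m / (m.factorial : ℝ) ≤ Real.exp 96 :=
    Real.pow_div_factorial_le_exp 96 (by norm_num) m
  have h6 : (24:ℝ) ^ m / (m.factorial : ℝ) = (96:ℝ) ^ m / (m.factorial : ℝ) * (1 / 4) ^ m := by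
    rw [show (96:ℝ) = 24 * 4 by norm_num, mul_pow]
    have : (4:ℝ) ^ m * (1 / 4) ^ m = 1 := by rw [← mul_pow]; norm_num
    field_simp
    rw [this]
  calc _ ≤ 24 ^ m / (m.factorial : ℝ) := h1.trans h4
    _ = (96:ℝ) ^ m / (m.factorial : ℝ) * (1 / 4) ^ m := h6
    _ ≤ _ := mul_le_mul_of_nonneg_right h5 (by positivity)

lemma E_div_V_le4 (h : Data4 z S g) (B r : ℕ) :
    esum g (blk z S r) (bb B r + 1)
      ≤ (Real.exp 168 * (1 / 4) ^ (bb B r + 1)) * ∏ p ∈ blk z S r, (1 - g p) := by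
  have h1 := E_le4 h B r
  have h2 := V_blk_ge4 h r
  have h3 : Real.exp 168 * Real.exp (-72) = Real.exp 96 := by rw [← Real.exp_add]; norm_num
  calc _ ≤ Real.exp 96 * (1 / 4) ^ (bb B r + 1) := h1
    _ = (Real.exp 168 * (1 / 4) ^ (bb B r + 1)) * Real.exp (-72) := by rw [← h3]; ring
    _ ≤ _ := mul_le_mul_of_nonneg_left h2 (by positivity)

lemma sum_eps_le4 (B R : ℕ) :
    ∑ r ∈ range R, Real.exp 168 * (1 / 4 : ℝ) ^ (bb B r + 1) ≤ eps4 B := by
  have h := sum_eps_le B R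
  unfold epsB at h
  rw [← Finset.mul_sum] at h ⊢
  unfold eps4
  have h1 := le_of_mul_le_mul_left h (Real.exp_pos 84)
  exact mul_le_mul_of_nonneg_left h1 (Real.exp_pos _).le

lemma prod_blk4 (h : Data4 z S g) (f : ℕ → ℝ) :
    ∏ r ∈ range z, ∏ p ∈ blk z S r, f p = ∏ p ∈ S, f p := by
  rw [← Finset.prod_biUnion, blk_union h.one_le]
  · intro p hp; exact ⟨(h.prime p hp).two_le, h.lt p hp⟩
  · intro i _ j _ hij; exact blk_disj z S i j hij

lemma Ufun_mean_le4 (h : Data4 z S g) (B : ℕ) :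
    Ufun z S B g ≤ (∏ p ∈ S, (1 - g p)) * Real.exp (eps4 B) := by
  unfold Ufun
  have hg01 : ∀ p ∈ S, 0 ≤ g p ∧ g p ≤ 1 := fun p hp =>
    ⟨h.nonneg p, (h.le p hp).trans (by norm_num)⟩
  have hV : ∀ r, 0 ≤ ∏ p ∈ blk z S r, (1 - g p) := fun r =>
    (Real.exp_pos _).le.trans (V_blk_ge4 h r)
  calc ∏ r ∈ range z, btr g (blk z S r) (bb B r)
      ≤ ∏ r ∈ range z, ((∏ p ∈ blk z S r, (1 - g p))
          * Real.exp (Real.exp 168 * (1 / 4) ^ (bb B r + 1))) := by
        apply Finset.prod_le_prod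
        · intro r _
          exact btr_nonneg g _ (fun p hp => hg01 p (blk_subset z S r hp)) _
            (by unfold bb; exact ⟨B + r, by ring⟩)
        · intro r _
          have h1 := (bonferroni g (blk z S r) (fun p hp => hg01 p (blk_subset z S r hp)) (bb B r)
            (by unfold bb; exact ⟨B + r, by ring⟩)).2
          have h2 := E_div_V_le4 h B r
          have h3 := Real.add_one_le_exp (Real.exp 168 * (1 / 4 : ℝ) ^ (bb B r + 1))
          have h4 := mul_le_mul_of_nonneg_left h3 (hV r)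
          linarith
    _ = (∏ p ∈ S, (1 - g p)) * Real.exp (∑ r ∈ range z, Real.exp 168 * (1 / 4) ^ (bb B r + 1)) := by
        rw [Finset.prod_mul_distrib, prod_blk4 h, Real.exp_sum]
    _ ≤ _ := by
        apply mul_le_mul_of_nonneg_left
        · rw [Real.exp_le_exp]; exact sum_eps_le4 B z
        · apply Finset.prod_nonneg
          intro p hp
          linarith [(hg01 p hp).2]

/-- Upper bound sieve of dimension four. -/
theorem upper_count4 (h : Data4 z S g) {α : Type*} (X : Finset α) (ind : α → ℕ → ℝ)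
    (hind : ∀ n ∈ X, IsInd (ind n)) (M : ℝ) (hM : 0 ≤ M) (B : ℕ)
    (herr : ∀ D : Finset ℕ, D ⊆ S →
      |∑ n ∈ X, ∏ p ∈ D, ind n p - M * ∏ p ∈ D, g p| ≤ ∏ p ∈ D, (p : ℝ)) :
    ∑ n ∈ X, ∏ p ∈ S, (1 - ind n p) ≤ M * (∏ p ∈ S, (1 - g p)) * Real.exp (eps4 B)
      + (z : ℝ) ^ (8 * B + 12) := by
  have hU : (range z).biUnion (blk z S) = S :=
    blk_union h.one_le (fun p hp => ⟨(h.prime p hp).two_le, h.lt p hp⟩)
  have key := avgP X ind g M (blk z S)
    (fun r => (blk z S r).powerset.filter (fun D => D.card ≤ bb B r))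
    (fun _ D => (-1) ^ D.card) (blk_disj z S)
    (fun r => Finset.filter_subset _ _)
    (by intro r D _; simp [abs_pow])
    (fun r p hp => h.prime p (blk_subset z S r hp)) z (xs z) (fun r => bb B r + 1)
    (fun r p hp => ((Finset.mem_filter.1 hp).2.2).le)
    (xs_pos h.one_le)
    (by
      intro r D hD
      exact ((Finset.mem_filter.1 hD).2).trans (Nat.le_succ _))
    (by intro D hD; rw [hU] at hD; exact herr D hD)
  have e : ((∏ r ∈ range z, xs z r ^ (bb B r + 1) : ℕ) : ℝ) ^ 2 ≤ (z : ℝ) ^ (8 * B + 12) := by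
    have h1 : ((∏ r ∈ range z, xs z r ^ (bb B r + 1) : ℕ) : ℝ) ≤ (z : ℝ) ^ (4 * B + 6) := by
      exact_mod_cast Zbound h.one_le B
    calc _ ≤ ((z : ℝ) ^ (4 * B + 6)) ^ 2 := by
          apply pow_le_pow_left₀ (by positivity) h1
      _ = _ := by rw [← pow_mul]; congr 1; ring
  have key2 := key.trans e
  have h1 : ∀ n ∈ X, ∏ p ∈ S, (1 - ind n p) ≤ Ufun z S B (ind n) := by
    intro n hn
    rw [← prod_blk4 h (fun p => 1 - ind n p)]
    unfold Ufun
    apply Finset.prod_le_prod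
    · intro r _
      exact Finset.prod_nonneg (fun p _ => by linarith [(hind n hn p).2])
    · intro r _
      exact (bonferroni (ind n) (blk z S r) (fun p _ => hind n hn p) (bb B r)
        (by unfold bb; exact ⟨B + r, by ring⟩)).1
  have h2 : ∑ n ∈ X, Ufun z S B (ind n) ≤ M * Ufun z S B g + (z : ℝ) ^ (8 * B + 12) := by
    have h3 := (abs_le.1 key2).2
    unfold Ufun
    simp only [btr_eq_loc]
    linarith
  have h3 := mul_le_mul_of_nonneg_left (Ufun_mean_le4 h B) hM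
  have h4 := Finset.sum_le_sum h1
  linarith

theorem sieve_count4 (P : ℕ → ℤ → Prop) [∀ p n, Decidable (P p n)]
    (hP : ∀ p n, P p (n + p) ↔ P p n) {z : ℕ} {S : Finset ℕ}
    (hdata : Data4 z S (fun p => (cnt P p : ℝ) / p))
    (X : ℤ) (Y B : ℕ) :
    (((Finset.Ioc X (X + Y)).filter (fun n => ∀ p ∈ S, ¬ P p n)).card : ℝ)
      ≤ Y * (∏ p ∈ S, (1 - (cnt P p : ℝ) / p)) * Real.exp (eps4 B) + (z : ℝ) ^ (8 * B + 12) := by
  have hcnt : ∀ p, cnt P p ≤ p := by
    intro p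
    unfold cnt
    exact (Finset.card_filter_le _ _).trans (by simp)
  have h := upper_count4 hdata (Finset.Ioc X (X + Y)) (fun n p => if P p n then 1 else 0)
    (by intro n _ p; simp only; split_ifs <;> norm_num) (Y : ℝ) (by positivity) B
    (by
      intro D hD
      have h1 := count_crt P hP D (fun p hp => hdata.prime p (hD hp)) X Y
      have e1 : ∑ n ∈ Finset.Ioc X (X + Y), ∏ p ∈ D, (if P p n then (1:ℝ) else 0)
          = (((Finset.Ioc X (X + Y)).filter (fun n => ∀ p ∈ D, P p n)).card : ℝ) := by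
        rw [Finset.card_filter]
        push_cast
        apply Finset.sum_congr rfl
        intro n _
        rw [Finset.prod_boole]
      rw [e1]
      refine h1.trans ?_
      apply Finset.prod_le_prod
      · intro p _; positivity
      · intro p hp; exact_mod_cast hcnt p)
  refine le_trans (le_of_eq ?_) h
  rw [Finset.card_filter]
  push_cast
  apply Finset.sum_congr rfl
  intro n _
  have e : ∀ p ∈ S, (1 - (if P p n then (1:ℝ) else 0)) = if ¬ P p n then 1 else 0 := by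
    intro p _
    split_ifs <;> simp_all
  rw [Finset.prod_congr rfl e, Finset.prod_boole]

lemma eps4_61 : eps4 61 ≤ 1 := by
  unfold eps4
  have h1 : Real.exp 168 ≤ 16 ^ 61 := by
    have h2 : Real.exp 168 = Real.exp 1 ^ (168:ℕ) := by
      rw [← Real.exp_nat_mul]; norm_num
    rw [h2]
    have h3 : Real.exp 1 ≤ 2.7182818286 := Real.exp_one_lt_d9.le
    calc Real.exp 1 ^ (168:ℕ) ≤ (2.7182818286:ℝ) ^ (168:ℕ) :=
          pow_le_pow_left₀ (Real.exp_pos _).le h3 _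
      _ ≤ 16 ^ 61 := by norm_num
  have h2 : (0:ℝ) < (1 / 16) ^ 61 := by positivity
  calc Real.exp 168 * (1 / 16) ^ 61 ≤ 16 ^ 61 * (1 / 16) ^ 61 :=
        mul_le_mul_of_nonneg_right h1 h2.le
    _ = 1 := by rw [← mul_pow]; norm_num

lemma exp_eps4_61 : Real.exp (eps4 61) ≤ 3 := by
  calc Real.exp (eps4 61) ≤ Real.exp 1 := Real.exp_le_exp.2 eps4_61
    _ ≤ 3 := by linarith [Real.exp_one_lt_d9]

end Pool.Agent.Helper75_TI
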