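import Pool.Agent.Helper75_TI.Corr2

set_option autoImplicit false

/-!
Few integers have a large sum of reciprocals of large prime factors (Rankin).
-/

namespace Pool.Agent.Helper75_TI

open Finset

/-- the sum of the reciprocals of the primes in `Q` which divide `l` -/
noncomputable def fQ (Q : Finset ℕ) (l : ℕ) : ℝ := ∑ p ∈ Q.filter (fun p => p ∣ l), (1:ℝ) / p

lemma fQ_nonneg (Q : Finset ℕ) (l : ℕ) : 0 ≤ fQ Q l :=
  Finset.sum_nonneg (fun p _ => by positivity)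

lemma exp_le_one_add {x : ℝ} (h0 : 0 ≤ x) (h1 : x ≤ 1) : Real.exp x ≤ 1 + 2 * x := by
  have h2 := Real.abs_exp_sub_one_sub_id_le (x := x) (by rw [abs_of_nonneg h0]; exact h1)
  have h3 := (abs_le.1 h2).2
  nlinarith

lemma card_mult (T : Finset ℕ) (hT : ∀ p ∈ T, p.Prime) (L : ℕ) :
    (((Finset.Icc 1 L).filter (fun l => ∀ p ∈ T, p ∣ l)).card : ℝ) ≤ L * ∏ p ∈ T, (1:ℝ) / p := by
  set m := ∏ p ∈ T, p with hm
  have hm0 : 0 < m := Finset.prod_pos (fun p hp => (hT p hp).pos)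
  have h1 : (Finset.Icc 1 L).filter (fun l => ∀ p ∈ T, p ∣ l)
      = (Finset.Ioc 0 L).filter (fun l => m ∣ l) := by
    ext l
    rw [Finset.mem_filter, Finset.mem_filter, Finset.mem_Icc, Finset.mem_Ioc]
    constructor
    · rintro ⟨h2, h3⟩
      refine ⟨⟨by omega, h2.2⟩, ?_⟩
      exact Finset.prod_primes_dvd l (fun p hp => (hT p hp).prime) h3
    · rintro ⟨h2, h3⟩
      exact ⟨⟨by omega, h2.2⟩, fun p hp => (Finset.dvd_prod_of_mem _ hp).trans h3⟩
  rw [h1, Nat.Ioc_filter_dvd_card_eq_div]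
  have h2 : ∏ p ∈ T, (1:ℝ) / p = 1 / (m : ℝ) := by
    rw [hm, Finset.prod_div_distrib]
    push_cast
    simp
  rw [h2, mul_one_div]
  exact Nat.cast_div_le

lemma exp_moment (Q : Finset ℕ) (lam : ℝ) (hlam : 0 ≤ lam) (P0 M : ℕ) (hP0 : lam ≤ P0)
    (hP1 : 1 ≤ P0) (hQ : ∀ p ∈ Q, p.Prime ∧ P0 < p ∧ p ≤ M) (L : ℕ) :
    ∑ l ∈ Finset.Icc 1 L, Real.exp (lam * fQ Q l) ≤ L * Real.exp 2 := by
  have h1 : ∀ l ∈ Finset.Icc 1 L, Real.exp (lam * fQ Q l)
      ≤ ∑ T ∈ Q.powerset, (∏ p ∈ T, (2 * lam / p)) * (if ∀ p ∈ T, p ∣ l then 1 else 0) := by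
    intro l _
    have e1 : Real.exp (lam * fQ Q l) ≤ ∏ p ∈ Q, (1 + (2 * lam / p) * (if p ∣ l then 1 else 0)) := by
      unfold fQ
      rw [Finset.mul_sum, Finset.sum_filter, Real.exp_sum]
      apply Finset.prod_le_prod
      · intro p _; positivity
      · intro p hp
        obtain ⟨h2, h3, h4⟩ := hQ p hp
        have hp0 : (0:ℝ) < p := by exact_mod_cast h2.pos
        split_ifs with hd
        · have h5 : lam * (1 / p) ≤ 1 := by
            rw [mul_one_div, div_le_one hp0]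
            have : (P0 : ℝ) ≤ p := by exact_mod_cast h3.le
            linarith
          have h6 := exp_le_one_add (x := lam * (1 / p)) (by positivity) h5
          refine h6.trans (le_of_eq ?_)
          ring
        · simp
    refine e1.trans (le_of_eq ?_)
    rw [Finset.prod_one_add]
    apply Finset.sum_congr rfl
    intro T _
    rw [Finset.prod_mul_distrib, Finset.prod_boole]
  refine (Finset.sum_le_sum h1).trans ?_
  rw [Finset.sum_comm]
  have h2 : ∀ T ∈ Q.powerset, ∑ l ∈ Finset.Icc 1 L, (∏ p ∈ T, (2 * lam / p)) *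
      (if ∀ p ∈ T, p ∣ l then (1:ℝ) else 0) ≤ L * ∏ p ∈ T, (2 * lam / p ^ 2) := by
    intro T hT
    rw [Finset.mem_powerset] at hT
    rw [← Finset.mul_sum, Finset.sum_boole]
    have h3 := card_mult T (fun p hp => (hQ p (hT hp)).1) L
    have h4 : 0 ≤ ∏ p ∈ T, (2 * lam / (p:ℝ)) := Finset.prod_nonneg (fun p _ => by positivity)
    refine (mul_le_mul_of_nonneg_left h3 h4).trans (le_of_eq ?_)
    rw [mul_left_comm, ← Finset.prod_mul_distrib]
    congr 1
    apply Finset.prod_congr rfl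
    intro p _
    rw [div_mul_div_comm, mul_one, pow_two]
  refine (Finset.sum_le_sum h2).trans ?_
  rw [← Finset.mul_sum, ← Finset.prod_one_add]
  apply mul_le_mul_of_nonneg_left _ (Nat.cast_nonneg L)
  have h3 : ∏ p ∈ Q, (1 + 2 * lam / (p:ℝ) ^ 2) ≤ Real.exp (∑ p ∈ Q, 2 * lam / (p:ℝ) ^ 2) := by
    rw [Real.exp_sum]
    apply Finset.prod_le_prod
    · intro p _; positivity
    · intro p _
      have := Real.add_one_le_exp (2 * lam / (p:ℝ) ^ 2)
      linarith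
  refine h3.trans ?_
  rw [Real.exp_le_exp]
  have hP1' : (1:ℝ) ≤ P0 := by exact_mod_cast hP1
  by_cases hMP : P0 ≤ M
  · have h4 : ∑ p ∈ Q, 1 / (p:ℝ) ^ 2 ≤ 1 / (P0:ℝ) := by
      have h5 : ∑ p ∈ Q, 1 / (p:ℝ) ^ 2 ≤ ∑ p ∈ Finset.Ioc P0 M, ((p:ℝ) ^ 2)⁻¹ := by
        have e : ∀ p ∈ Q, 1 / (p:ℝ) ^ 2 = ((p:ℝ) ^ 2)⁻¹ := fun p _ => one_div _
        rw [Finset.sum_congr rfl e]
        apply Finset.sum_le_sum_of_subset_of_nonneg
        · intro p hp
          rw [Finset.mem_Ioc]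
          exact (hQ p hp).2
        · intro p _ _; positivity
      have h6 := sum_Ioc_inv_sq_le_sub (α := ℝ) (k := P0) (n := M) (by omega) hMP
      have h7 : (0:ℝ) ≤ (M:ℝ)⁻¹ := by positivity
      have h8 : (1:ℝ) / P0 = (P0:ℝ)⁻¹ := one_div _
      linarith
    have h5 : ∑ p ∈ Q, 2 * lam / (p:ℝ) ^ 2 = 2 * lam * ∑ p ∈ Q, 1 / (p:ℝ) ^ 2 := by
      rw [Finset.mul_sum]
      apply Finset.sum_congr rfl
      intro p _
      ring
    rw [h5]
    calc 2 * lam * ∑ p ∈ Q, 1 / (p:ℝ) ^ 2 ≤ 2 * lam * (1 / (P0:ℝ)) :=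
          mul_le_mul_of_nonneg_left h4 (by linarith)
      _ ≤ 2 := by
          rw [mul_one_div, div_le_iff₀ (by linarith)]
          linarith
  · have : Q = ∅ := by
      apply Finset.eq_empty_of_forall_notMem
      intro p hp
      have := (hQ p hp).2
      omega
    rw [this]
    simp

/-- Rankin: the number of `l <= L` with `fQ Q l > 1/3`. -/
lemma card_large (Q : Finset ℕ) (lam : ℝ) (hlam : 0 ≤ lam) (P0 M : ℕ) (hP0 : lam ≤ P0)
    (hP1 : 1 ≤ P0) (hQ : ∀ p ∈ Q, p.Prime ∧ P0 < p ∧ p ≤ M) (L : ℕ) :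
    (((Finset.Icc 1 L).filter (fun l => 1 / 3 < fQ Q l)).card : ℝ)
      ≤ L * Real.exp 2 * Real.exp (-(lam / 3)) := by
  have h1 := exp_moment Q lam hlam P0 M hP0 hP1 hQ L
  have h2 : (((Finset.Icc 1 L).filter (fun l => 1 / 3 < fQ Q l)).card : ℝ) * Real.exp (lam / 3)
      ≤ ∑ l ∈ Finset.Icc 1 L, Real.exp (lam * fQ Q l) := by
    rw [← nsmul_eq_mul, ← Finset.sum_const]
    refine le_trans (Finset.sum_le_sum (g := fun l => Real.exp (lam * fQ Q l)) ?_)
      (Finset.sum_le_sum_of_subset_of_nonneg (Finset.filter_subset _ _)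
        (fun l _ _ => (Real.exp_pos _).le))
    intro l hl
    have h3 := (Finset.mem_filter.1 hl).2
    rw [Real.exp_le_exp]
    nlinarith
  rw [Real.exp_neg, ← div_eq_mul_inv, le_div_iff₀ (Real.exp_pos _)]
  exact h2.trans h1

/-- the number of bad shifts -/
lemma card_bad (Q : Finset ℕ) (lam : ℝ) (hlam : 0 ≤ lam) (P0 M : ℕ) (hP0 : lam ≤ P0)
    (hP1 : 1 ≤ P0) (hQ : ∀ p ∈ Q, p.Prime ∧ P0 < p ∧ p ≤ M) (N : ℕ) :
    (((Finset.Icc 1 N).filter (fun h => 1 < fQ Q (h * (3 * h - 1) * (3 * h + 1)))).card : ℝ)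
      ≤ 12 * N * Real.exp 2 * Real.exp (-(lam / 3)) := by
  set F := (Finset.Icc 1 (4 * N)).filter (fun l => 1 / 3 < fQ Q l) with hF
  have hFc := card_large Q lam hlam P0 M hP0 hP1 hQ (4 * N)
  rw [← hF] at hFc
  set X := (Finset.Icc 1 N).filter (fun h => 1 < fQ Q (h * (3 * h - 1) * (3 * h + 1))) with hX
  set X1 := (Finset.Icc 1 N).filter (fun h => 1 / 3 < fQ Q h)
  set X2 := (Finset.Icc 1 N).filter (fun h => 1 / 3 < fQ Q (3 * h - 1))
  set X3 := (Finset.Icc 1 N).filter (fun h => 1 / 3 < fQ Q (3 * h + 1))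
  have hsub : X ⊆ X1 ∪ (X2 ∪ X3) := by
    intro h hh
    obtain ⟨hh1, hh2⟩ := Finset.mem_filter.1 hh
    have key : fQ Q (h * (3 * h - 1) * (3 * h + 1)) ≤ fQ Q h + (fQ Q (3 * h - 1) + fQ Q (3 * h + 1)) := by
      unfold fQ
      have hsub2 : Q.filter (fun p => p ∣ h * (3 * h - 1) * (3 * h + 1)) ⊆
          Q.filter (fun p => p ∣ h) ∪ (Q.filter (fun p => p ∣ 3 * h - 1) ∪
            Q.filter (fun p => p ∣ 3 * h + 1)) := by
        intro p hp
        obtain ⟨hpQ, hpd⟩ := Finset.mem_filter.1 hp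
        have hpp := (hQ p hpQ).1
        rw [Finset.mem_union, Finset.mem_union, Finset.mem_filter, Finset.mem_filter,
          Finset.mem_filter]
        rcases (Nat.Prime.dvd_mul hpp).1 hpd with h1 | h1
        · rcases (Nat.Prime.dvd_mul hpp).1 h1 with h2 | h2
          · exact Or.inl ⟨hpQ, h2⟩
          · exact Or.inr (Or.inl ⟨hpQ, h2⟩)
        · exact Or.inr (Or.inr ⟨hpQ, h1⟩)
      have hn : ∀ p : ℕ, (0:ℝ) ≤ 1 / p := fun p => by positivity
      have un : ∀ s t : Finset ℕ, ∑ p ∈ s ∪ t, (1:ℝ) / p ≤ ∑ p ∈ s, (1:ℝ) / p + ∑ p ∈ t, (1:ℝ) / p := by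
        intro s t
        rw [← Finset.sum_union_inter]
        have : 0 ≤ ∑ p ∈ s ∩ t, (1:ℝ) / p := Finset.sum_nonneg (fun p _ => hn p)
        linarith
      refine (Finset.sum_le_sum_of_subset_of_nonneg hsub2 (fun p _ _ => hn p)).trans ?_
      refine (un _ _).trans ?_
      have := un (Q.filter (fun p => p ∣ 3 * h - 1)) (Q.filter (fun p => p ∣ 3 * h + 1))
      linarith
    rw [Finset.mem_union, Finset.mem_union]
    by_contra hcon
    push Not at hcon
    obtain ⟨c1, c2, c3⟩ := hcon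
    have d1 : ¬ 1 / 3 < fQ Q h := fun hc => c1 (Finset.mem_filter.2 ⟨hh1, hc⟩)
    have d2 : ¬ 1 / 3 < fQ Q (3 * h - 1) := fun hc => c2 (Finset.mem_filter.2 ⟨hh1, hc⟩)
    have d3 : ¬ 1 / 3 < fQ Q (3 * h + 1) := fun hc => c3 (Finset.mem_filter.2 ⟨hh1, hc⟩)
    linarith
  have b1 : X1.card ≤ F.card := by
    apply Finset.card_le_card
    intro h hh
    obtain ⟨hh1, hh2⟩ := Finset.mem_filter.1 hh
    rw [Finset.mem_Icc] at hh1
    exact Finset.mem_filter.2 ⟨Finset.mem_Icc.2 ⟨hh1.1, by omega⟩, hh2⟩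
  have b2 : X2.card ≤ F.card := by
    apply Finset.card_le_card_of_injOn (fun h => 3 * h - 1)
    · intro h hh
      obtain ⟨hh1, hh2⟩ := Finset.mem_filter.1 (Finset.mem_coe.1 hh)
      rw [Finset.mem_Icc] at hh1
      exact Finset.mem_coe.2 (Finset.mem_filter.2 ⟨Finset.mem_Icc.2 ⟨by show 1 ≤ 3 * h - 1; omega,
        by show 3 * h - 1 ≤ 4 * N; omega⟩, hh2⟩)
    · intro a ha b hb hab
      have h1 := (Finset.mem_Icc.1 (Finset.mem_filter.1 (Finset.mem_coe.1 ha)).1).1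
      have h2 := (Finset.mem_Icc.1 (Finset.mem_filter.1 (Finset.mem_coe.1 hb)).1).1
      simp only at hab
      omega
  have b3 : X3.card ≤ F.card := by
    apply Finset.card_le_card_of_injOn (fun h => 3 * h + 1)
    · intro h hh
      obtain ⟨hh1, hh2⟩ := Finset.mem_filter.1 (Finset.mem_coe.1 hh)
      rw [Finset.mem_Icc] at hh1
      exact Finset.mem_coe.2 (Finset.mem_filter.2 ⟨Finset.mem_Icc.2 ⟨by show 1 ≤ 3 * h + 1; omega,
        by show 3 * h + 1 ≤ 4 * N; omega⟩, hh2⟩)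
    · intro a ha b hb hab
      simp only at hab
      omega
  have hc : X.card ≤ 3 * F.card := by
    have h1 := Finset.card_le_card hsub
    have h2 := Finset.card_union_le X1 (X2 ∪ X3)
    have h3 := Finset.card_union_le X2 X3
    omega
  have hcr : (X.card : ℝ) ≤ 3 * F.card := by exact_mod_cast hc
  push_cast at hFc
  linarith

end Pool.Agent.Helper75_TI
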